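import Mathlib

/-!
# Two-dimensional complexes, links, local spectral expansion

Definitions used in the statement on Cayley local spectral expanders over `𝔽₂ⁿ`.
-/

set_option autoImplicit false

namespace Pool.Agent.Work.MP_6591ba_co

/-- A 2-dimensional simplicial complex with vertex set `V`: a set of edges (2-element subsets,
given as a simple graph) and a set `tri` of 3-element subsets of `V`, such that every 2-element
subset of a triangle is an edge. -/
structure TwoComplex (V : Type) where
  /-- the edges -/
  graph : SimpleGraph V
  /-- the triangles -/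
  tri : Set (Finset V)
  /-- triangles have three elements -/
  card_tri : ∀ t ∈ tri, t.card = 3
  /-- the edges of triangles are edges -/
  edge_of_tri : ∀ t ∈ tri, ∀ x ∈ t, ∀ y ∈ t, x ≠ y → graph.Adj x y

open Classical in
/-- The link of the vertex `u`: its vertices are the neighbours of `u`, and `v`, `w` are adjacent
iff `{u, v, w}` is a triangle. -/
def TwoComplex.link {V : Type} (X : TwoComplex V) (u : V) : SimpleGraph (X.graph.neighborSet u) where
  Adj v w := ({u, v.1, w.1} : Finset V) ∈ X.tri
  symm := ⟨by
    intro v w h
    have e : ({u, w.1, v.1} : Finset V) = {u, v.1, w.1} := by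
      rw [Finset.pair_comm]
    rw [e]
    exact h⟩
  loopless := ⟨by
    intro v h
    have h1 := X.card_tri _ h
    have h2 : ({u, v.1, v.1} : Finset V).card ≤ 2 := by
      rw [Finset.pair_eq_singleton]
      exact Finset.card_le_two
    omega⟩

open Classical in
/-- The random walk matrix of a graph: the entry at `(v, w)` is `1 / deg v` if `v`, `w` are adjacent
and `0` otherwise. -/
noncomputable def walkMatrix {W : Type} (G : SimpleGraph W) : Matrix W W ℝ :=
  fun v w => if G.Adj v w then 1 / ((G.neighborSet v).ncard : ℝ) else 0

open Classical in
/-- The (real) eigenvalues of the random walk matrix of a finite graph, with multiplicity. -/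
noncomputable def walkEigenvalues {W : Type} [Finite W] (G : SimpleGraph W) : Multiset ℝ :=
  letI : Fintype W := Fintype.ofFinite W
  (walkMatrix G).charpoly.roots

/-- `λ(G)`: the second largest absolute value of an eigenvalue (counted with multiplicity) of the
random walk matrix of `G`. -/
noncomputable def secondEigenvalue {W : Type} [Finite W] (G : SimpleGraph W) : ℝ :=
  (((walkEigenvalues G).map (fun x => |x|)).sort (· ≥ ·)).getD 1 0

/-- `X` is a `lam`-local spectral expander: its graph is connected, and every link satisfies
`λ(X_u) ≤ lam`. -/
def IsLocalSpectralExpander {V : Type} [Finite V] (X : TwoComplex V) (lam : ℝ) : Prop :=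
  X.graph.Connected ∧ ∀ u : V, secondEigenvalue (X.link u) ≤ lam

/-- `X` is a Cayley complex over `𝔽₂ⁿ` with generating set `S`. -/
def IsCayleyComplex {n : ℕ} (X : TwoComplex (Fin n → ZMod 2)) (S : Set (Fin n → ZMod 2)) : Prop :=
  AddSubgroup.closure S = ⊤ ∧ ∀ x y, X.graph.Adj x y ↔ x + y ∈ S

end Pool.Agent.Work.MP_6591ba_co
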