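import Mathlib

set_option autoImplicit false

namespace Pool.Agent.Work.MP_6591ba_co

open Nat

theorem choose_arith (C k l D : ℕ) (hD : 4 * (C + 1) * l ≤ D) (hk : k ≤ C * D) :
    2 ^ l * (k + l).choose l ≤ D.choose (2 * l) := by
  have h1 : (k + l).choose l * l ! ≤ (k + l) ^ l := by
    rw [mul_comm, ← Nat.descFactorial_eq_factorial_mul_choose]
    exact Nat.descFactorial_le_pow _ _
  have h2 : (D - 2 * l) ^ (2 * l) ≤ D.choose (2 * l) * (2 * l) ! := by
    rw [mul_comm (D.choose (2 * l)), ← Nat.descFactorial_eq_factorial_mul_choose]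
    refine le_trans ?_ (Nat.pow_sub_le_descFactorial D (2 * l))
    apply Nat.pow_le_pow_left
    omega
  have h3 : (2 * l) ! ≤ l ! * (2 * l) ^ l := by
    have := Nat.factorial_mul_descFactorial (show l ≤ 2 * l by omega)
    rw [← this]
    have e : 2 * l - l = l := by omega
    rw [e]
    exact Nat.mul_le_mul_left _ (Nat.descFactorial_le_pow _ _)
  have h4 : 2 * (2 * l) * (k + l) ≤ (D - 2 * l) ^ 2 := by
    obtain ⟨m, hm⟩ : ∃ m, D = 2 * l + m := ⟨D - 2 * l, by nlinarith [Nat.sub_add_cancel (show 2 * l ≤ D by nlinarith)]⟩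
    have e : D - 2 * l = m := by omega
    rw [e]
    have hkm : k ≤ C * (2 * l + m) := by rw [← hm]; exact hk
    have hDm : 4 * (C + 1) * l ≤ 2 * l + m := by rw [← hm]; exact hD
    have h5 : 2 * (2 * l) * (k + l) ≤ 2 * (2 * l) * (C * (2 * l + m) + l) :=
      Nat.mul_le_mul_left _ (by omega)
    refine h5.trans ?_
    have h6 : (4 * C + 2) * l ≤ m := by nlinarith
    have h7 : (2 * l + m) * (4 * (C + 1) * l) ≤ (2 * l + m) * (2 * l + m) :=
      Nat.mul_le_mul_left _ hDm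
    nlinarith
  have h5 : (2 * l) ! * (2 ^ l * (k + l).choose l) ≤ (2 * l) ! * D.choose (2 * l) := by
    calc (2 * l) ! * (2 ^ l * (k + l).choose l)
        ≤ (l ! * (2 * l) ^ l) * (2 ^ l * (k + l).choose l) := Nat.mul_le_mul_right _ h3
      _ = (2 * l) ^ l * 2 ^ l * ((k + l).choose l * l !) := by ring
      _ ≤ (2 * l) ^ l * 2 ^ l * (k + l) ^ l := Nat.mul_le_mul_left _ h1
      _ = (2 * (2 * l) * (k + l)) ^ l := by rw [← mul_pow, ← mul_pow]; ring
      _ ≤ ((D - 2 * l) ^ 2) ^ l := Nat.pow_le_pow_left h4 _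
      _ = (D - 2 * l) ^ (2 * l) := by rw [← pow_mul]
      _ ≤ D.choose (2 * l) * (2 * l) ! := h2
      _ = (2 * l) ! * D.choose (2 * l) := mul_comm _ _
  exact Nat.le_of_mul_le_mul_left h5 (Nat.factorial_pos _)

end Pool.Agent.Work.MP_6591ba_co
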