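import Mathlib

set_option autoImplicit false

namespace Pool.Agent.Work.MP_6591ba_co

open Module Finset

variable {F : Type*} [Field F] [Fintype F] [DecidableEq F]

theorem hyperplane_card {α : Type*} [Fintype α] [DecidableEq α] (y : α → F) (hy : y ≠ 0) (a : F) :
    Fintype.card F * (Finset.univ.filter (fun x : α → F => a + ∑ i, y i * x i = 0)).card ≤
      Fintype.card (α → F) := by
  obtain ⟨i, hi⟩ : ∃ i, y i ≠ 0 := by
    by_contra h
    push Not at h
    exact hy (funext h)
  have key : ∀ (x : α → F) (t : F), ∑ j, y j * (x + (Pi.single i t : α → F)) j = (∑ j, y j * x j) + y i * t := by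
    intro x t
    simp only [Pi.add_apply, mul_add, Finset.sum_add_distrib]
    congr 1
    rw [Finset.sum_eq_single i]
    · rw [Pi.single_eq_same]
    · intro j _ hj
      rw [Pi.single_eq_of_ne hj, mul_zero]
    · intro h
      exact absurd (Finset.mem_univ _) h
  rw [← Finset.card_univ (α := F), ← Finset.card_product, ← Finset.card_univ (α := α → F)]
  apply Finset.card_le_card_of_injOn (fun p : F × (α → F) => p.2 + (Pi.single i p.1 : α → F))
  · intro p _
    exact Finset.mem_coe.2 (Finset.mem_univ _)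
  · rintro ⟨t, x⟩ hp ⟨t', x'⟩ hp' h
    simp only [Finset.coe_product, Set.mem_prod, Finset.mem_coe, Finset.mem_univ, true_and,
      Finset.mem_filter] at hp hp'
    simp only at h
    have h1 : (∑ j, y j * (x + (Pi.single i t : α → F)) j) =
        ∑ j, y j * (x' + (Pi.single i t' : α → F)) j := by rw [h]
    rw [key, key] at h1
    have h2 : y i * t = y i * t' := by linear_combination h1 - hp + hp'
    have h3 : t = t' := mul_left_cancel₀ hi h2
    subst h3
    rw [add_left_inj] at h
    rw [h]

/-- Index type of the coordinates. -/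
abbrev Idx (e D' : ℕ) := Unit ⊕ (Fin e ⊕ Fin D')

/-- The direction attached to `u`. -/
def dir {e D' : ℕ} (v : (Fin e → F) → (Fin D' → F)) (u : Fin e → F) : Idx e D' → F :=
  Sum.elim (fun _ => 1) (Sum.elim u (v u))

omit [Fintype F] [DecidableEq F] in
theorem sum_dir {e D' : ℕ} (v : (Fin e → F) → (Fin D' → F)) (u : Fin e → F) (y : Idx e D' → F) :
    ∑ i, y i * dir v u i = y (Sum.inl ()) + ∑ i, y (Sum.inr (Sum.inl i)) * u i +
      ∑ i, y (Sum.inr (Sum.inr i)) * v u i := by
  rw [Fintype.sum_sum_type, Fintype.sum_sum_type]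
  simp [dir]
  ring

/-- Number of directions orthogonal to `y`. -/
def zc {κ ι : Type*} [Fintype κ] [Fintype ι] (d : κ → (ι → F)) (y : ι → F) : ℕ :=
  (Finset.univ.filter (fun u : κ => ∑ i, y i * d u i = 0)).card

theorem avg_bound {e D' : ℕ} (y : Idx e D' → F) (hy : (fun i => y (Sum.inr (Sum.inr i))) ≠ 0) :
    ∑ v : (Fin e → F) → (Fin D' → F), Fintype.card F ^ (zc (dir v) y) ≤
      2 ^ (Fintype.card (Fin e → F)) * Fintype.card ((Fin e → F) → (Fin D' → F)) := by
  have h1 : ∀ v : (Fin e → F) → (Fin D' → F), Fintype.card F ^ (zc (dir v) y) =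
      ∏ u : Fin e → F, (if y (Sum.inl ()) + ∑ i, y (Sum.inr (Sum.inl i)) * u i +
        ∑ i, y (Sum.inr (Sum.inr i)) * v u i = 0 then Fintype.card F else 1) := by
    intro v
    rw [Finset.prod_ite, Finset.prod_const_one, mul_one, Finset.prod_const]
    congr 1
    unfold zc
    congr 1
    apply Finset.filter_congr
    intro u _
    rw [sum_dir]
  rw [Finset.sum_congr rfl (fun v _ => h1 v)]
  have h2 : (∑ v : (Fin e → F) → (Fin D' → F), ∏ u : Fin e → F,
      (if y (Sum.inl ()) + ∑ i, y (Sum.inr (Sum.inl i)) * u i +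
        ∑ i, y (Sum.inr (Sum.inr i)) * v u i = 0 then Fintype.card F else 1)) =
      ∏ u : Fin e → F, ∑ x : Fin D' → F, (if y (Sum.inl ()) + ∑ i, y (Sum.inr (Sum.inl i)) * u i +
        ∑ i, y (Sum.inr (Sum.inr i)) * x i = 0 then Fintype.card F else 1) := by
    rw [Finset.prod_univ_sum, Fintype.piFinset_univ]
  rw [h2]
  have h3 : ∀ u : Fin e → F, (∑ x : Fin D' → F,
      (if y (Sum.inl ()) + ∑ i, y (Sum.inr (Sum.inl i)) * u i +
        ∑ i, y (Sum.inr (Sum.inr i)) * x i = 0 then Fintype.card F else 1)) ≤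
        2 * Fintype.card (Fin D' → F) := by
    intro u
    have h4 := hyperplane_card (fun i => y (Sum.inr (Sum.inr i))) hy
      (y (Sum.inl ()) + ∑ i, y (Sum.inr (Sum.inl i)) * u i)
    rw [Finset.sum_ite, Finset.sum_const, Finset.sum_const, smul_eq_mul, smul_eq_mul, mul_one]
    have h5 := Finset.card_filter_le (Finset.univ : Finset (Fin D' → F))
      (fun x => ¬ (y (Sum.inl ()) + ∑ i, y (Sum.inr (Sum.inl i)) * u i +
        ∑ i, y (Sum.inr (Sum.inr i)) * x i = 0))
    rw [Finset.card_univ] at h5
    rw [mul_comm] at h4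
    omega
  refine (Finset.prod_le_prod' (fun u _ => h3 u)).trans ?_
  rw [Finset.prod_const, Finset.card_univ, mul_pow]
  apply le_of_eq
  congr 1
  simp [Fintype.card_pi]

theorem exists_dir {e D' f : ℕ} (hF : Fintype.card F = 2 ^ f) :
    ∃ v : (Fin e → F) → (Fin D' → F), ∀ y : Idx e D' → F, y ≠ 0 →
      f * zc (dir v) y ≤ Fintype.card (Fin e → F) + f * (1 + e + D') := by
  have hQ : 0 < Fintype.card F := Fintype.card_pos
  set Y : Finset (Idx e D' → F) :=
    Finset.univ.filter (fun y => (fun i => y (Sum.inr (Sum.inr i))) ≠ (0 : Fin D' → F)) with hY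
  have hsum : ∑ v : (Fin e → F) → (Fin D' → F), ∑ y ∈ Y, Fintype.card F ^ (zc (dir v) y) ≤
      ∑ _v : (Fin e → F) → (Fin D' → F),
        Fintype.card F ^ (1 + e + D') * 2 ^ (Fintype.card (Fin e → F)) := by
    rw [Finset.sum_comm, Finset.sum_const, Finset.card_univ, smul_eq_mul]
    refine (Finset.sum_le_sum (fun y hy => avg_bound y (by
      rw [hY, Finset.mem_filter] at hy
      exact hy.2))).trans ?_
    rw [Finset.sum_const, smul_eq_mul]
    have hYc : Y.card ≤ Fintype.card F ^ (1 + e + D') := by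
      refine (Finset.card_le_univ Y).trans ?_
      apply le_of_eq
      rw [Fintype.card_fun]
      congr 1
      simp [Idx]
      ring
    calc Y.card * (2 ^ Fintype.card (Fin e → F) * Fintype.card ((Fin e → F) → Fin D' → F))
        ≤ Fintype.card F ^ (1 + e + D') *
          (2 ^ Fintype.card (Fin e → F) * Fintype.card ((Fin e → F) → Fin D' → F)) :=
          Nat.mul_le_mul_right _ hYc
      _ = _ := by ring
  obtain ⟨v, _, hv⟩ := Finset.exists_le_of_sum_le
    (⟨fun _ => 0, Finset.mem_univ _⟩ : (Finset.univ : Finset ((Fin e → F) → (Fin D' → F))).Nonempty)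
    hsum
  refine ⟨v, ?_⟩
  intro y hy
  by_cases hy' : (fun i => y (Sum.inr (Sum.inr i))) ≠ (0 : Fin D' → F)
  · have h1 : Fintype.card F ^ (zc (dir v) y) ≤
        Fintype.card F ^ (1 + e + D') * 2 ^ (Fintype.card (Fin e → F)) := by
      refine le_trans ?_ hv
      have hm : y ∈ Y := by
        rw [hY, Finset.mem_filter]
        exact ⟨Finset.mem_univ _, hy'⟩
      exact Finset.single_le_sum (f := fun y => Fintype.card F ^ (zc (dir v) y))
        (fun i _ => Nat.zero_le _) hm
    have h2 : 2 ^ (f * zc (dir v) y) ≤ 2 ^ (Fintype.card (Fin e → F) + f * (1 + e + D')) := by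
      calc 2 ^ (f * zc (dir v) y) = Fintype.card F ^ (zc (dir v) y) := by rw [hF, pow_mul]
        _ ≤ Fintype.card F ^ (1 + e + D') * 2 ^ (Fintype.card (Fin e → F)) := h1
        _ = 2 ^ (f * (1 + e + D')) * 2 ^ (Fintype.card (Fin e → F)) := by
          rw [pow_mul, ← hF]
        _ = _ := by rw [← pow_add, add_comm]
    exact (Nat.pow_le_pow_iff_right (by norm_num)).1 h2
  · rw [not_not] at hy'
    have hzero : ∀ i, y (Sum.inr (Sum.inr i)) = 0 := fun i => congrFun hy' i
    have hz : zc (dir v) y = (Finset.univ.filter (fun u : Fin e → F =>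
        y (Sum.inl ()) + ∑ i, y (Sum.inr (Sum.inl i)) * u i = 0)).card := by
      unfold zc
      congr 1
      apply Finset.filter_congr
      intro u _
      rw [sum_dir]
      simp [hzero]
    have hfQ : f ≤ Fintype.card F := by
      rw [hF]; exact Nat.lt_two_pow_self.le
    by_cases hy1 : (fun i => y (Sum.inr (Sum.inl i))) = (0 : Fin e → F)
    · have hzero1 : ∀ i, y (Sum.inr (Sum.inl i)) = 0 := fun i => congrFun hy1 i
      have hy0 : y (Sum.inl ()) ≠ 0 := by
        intro h0
        apply hy
        funext i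
        rcases i with ⟨⟩ | i | i
        · exact h0
        · exact hzero1 i
        · exact hzero i
      have : zc (dir v) y = 0 := by
        rw [hz, Finset.card_eq_zero, Finset.filter_eq_empty_iff]
        intro u _
        simp [hzero1, hy0]
      rw [this]
      omega
    · have h1 := hyperplane_card (fun i => y (Sum.inr (Sum.inl i))) hy1 (y (Sum.inl ()))
      rw [← hz] at h1
      calc f * zc (dir v) y ≤ Fintype.card F * zc (dir v) y := Nat.mul_le_mul_right _ hfQ
        _ ≤ Fintype.card (Fin e → F) := h1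
        _ ≤ _ := Nat.le_add_right _ _

omit [Fintype F] [DecidableEq F] in
theorem dir_inj {e D' : ℕ} (v : (Fin e → F) → (Fin D' → F)) (u u' : Fin e → F) (c c' : F)
    (hc : c ≠ 0) (h : c • dir v u = c' • dir v u') : u = u' ∧ c = c' := by
  have h0 : c = c' := by
    have := congrFun h (Sum.inl ())
    simpa [dir] using this
  subst h0
  refine ⟨?_, rfl⟩
  funext i
  have := congrFun h (Sum.inr (Sum.inl i))
  simp only [Pi.smul_apply, dir, Sum.elim_inr, Sum.elim_inl, smul_eq_mul] at this
  exact mul_left_cancel₀ hc this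

end Pool.Agent.Work.MP_6591ba_co
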