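import Mathlib
import Pool.Agent.Work.MP_6591ba_co.Dirs

set_option autoImplicit false

namespace Pool.Agent.Work.MP_6591ba_co

open Finset

variable {F ι κ : Type} [Field F] [Fintype F] [DecidableEq F] [Fintype ι] [DecidableEq ι]
  [Fintype κ] [DecidableEq κ]

/-- Model of the links. -/
def LG (d : κ → (ι → F)) : SimpleGraph (Fˣ × (ι → F)) where
  Adj p q := p.1 ≠ q.1 ∧ ∃ u, ∃ t : F, t ≠ 0 ∧ q.2 = p.2 + t • d u
  symm := ⟨by
    rintro p q ⟨h1, u, t, ht, h2⟩
    exact ⟨h1.symm, u, -t, neg_ne_zero.2 ht, by rw [h2, neg_smul, add_neg_cancel_right]⟩⟩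
  loopless := ⟨by
    rintro p ⟨h1, _⟩
    exact h1 rfl⟩

/-- The family of directions is nonzero and pairwise non-proportional. -/
def DirInj (d : κ → (ι → F)) : Prop :=
  ∀ (u u' : κ) (c c' : F), c ≠ 0 → c • d u = c' • d u' → u = u' ∧ c = c'

noncomputable instance instDecLG (d : κ → (ι → F)) (p : Fˣ × (ι → F)) :
    DecidablePred (fun q => (LG d).Adj p q) := Classical.decPred _

omit [Fintype κ] [Fintype F] [Fintype ι] [DecidableEq F] [DecidableEq ι] [DecidableEq κ] in
theorem LG_adj (d : κ → (ι → F)) (p q : Fˣ × (ι → F)) :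
    (LG d).Adj p q ↔ p.1 ≠ q.1 ∧ ∃ u, ∃ t : F, t ≠ 0 ∧ q.2 = p.2 + t • d u := Iff.rfl

omit [DecidableEq κ] in
theorem nbr_sum {R : Type} [AddCommMonoid R] (d : κ → (ι → F)) (hd : DirInj d)
    (p : Fˣ × (ι → F)) (g : Fˣ × (ι → F) → R) :
    ∑ q ∈ Finset.univ.filter (fun q => (LG d).Adj p q), g q =
      ∑ c ∈ (Finset.univ : Finset Fˣ).erase p.1, ∑ u : κ, ∑ t ∈ (Finset.univ : Finset F).erase 0,
        g (c, p.2 + t • d u) := by
  have himg : Finset.univ.filter (fun q => (LG d).Adj p q) =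
      (((Finset.univ : Finset Fˣ).erase p.1) ×ˢ ((Finset.univ : Finset κ) ×ˢ
        ((Finset.univ : Finset F).erase 0))).image
        (fun x : Fˣ × (κ × F) => (x.1, p.2 + x.2.2 • d x.2.1)) := by
    ext q
    simp only [Finset.mem_filter, Finset.mem_univ, true_and, Finset.mem_image, Finset.mem_product,
      Finset.mem_erase, and_true, LG_adj]
    constructor
    · rintro ⟨h1, u, t, ht, h2⟩
      refine ⟨(q.1, (u, t)), ⟨fun h => h1 h.symm, ht⟩, ?_⟩
      rw [← h2]
    · rintro ⟨⟨c, u, t⟩, ⟨h1, h2⟩, rfl⟩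
      exact ⟨fun h => h1 h.symm, u, t, h2, rfl⟩
  rw [himg, Finset.sum_image]
  · rw [Finset.sum_product]
    apply Finset.sum_congr rfl
    intro c _
    rw [Finset.sum_product]
  · rintro ⟨c, u, t⟩ hx ⟨c', u', t'⟩ _ h
    simp only [Finset.coe_product, Set.mem_prod, Finset.mem_coe, Finset.mem_erase, Finset.mem_univ,
      and_true, true_and] at hx
    simp only [Prod.mk.injEq, add_right_inj] at h
    obtain ⟨h1, h2⟩ := h
    obtain ⟨h3, h4⟩ := hd u u' t t' hx.2 h2
    rw [h1, h3, h4]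

/-- Degree of the link graph. -/
def degL (F κ : Type) [Fintype F] [Fintype κ] : ℕ :=
  (Fintype.card F - 2) * (Fintype.card κ * (Fintype.card F - 1))

omit [DecidableEq κ] in
theorem card_nbr (d : κ → (ι → F)) (hd : DirInj d) (p : Fˣ × (ι → F)) :
    (Finset.univ.filter (fun q => (LG d).Adj p q)).card = degL F κ := by
  rw [Finset.card_eq_sum_ones, nbr_sum d hd p (fun _ => 1)]
  simp only [Finset.sum_const, smul_eq_mul, mul_one, Finset.card_univ,
    Finset.card_erase_of_mem (Finset.mem_univ _), Fintype.card_units, degL]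
  congr 1

section fourier

variable (χ : AddChar F ℂ)

/-- The character attached to `y`. -/
noncomputable def psi (y A : ι → F) : ℂ := χ (∑ i, y i * A i)

omit [Fintype F] [DecidableEq F] [DecidableEq ι] in
theorem psi_add (y A B : ι → F) : psi χ y (A + B) = psi χ y A * psi χ y B := by
  unfold psi
  rw [← AddChar.map_add_eq_mul]
  congr 1
  rw [← Finset.sum_add_distrib]
  apply Finset.sum_congr rfl
  intro i _
  rw [Pi.add_apply, mul_add]

omit [Fintype F] [DecidableEq F] [DecidableEq ι] in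
theorem psi_zero_right (y : ι → F) : psi χ y 0 = 1 := by
  unfold psi
  simp

omit [Fintype F] [DecidableEq F] [DecidableEq ι] in
theorem psi_zero_left (A : ι → F) : psi χ 0 A = 1 := by
  unfold psi
  simp

omit [Fintype F] [DecidableEq F] in
theorem addChar_sum {α : Type} (s : Finset α) (f : α → F) :
    χ (∑ i ∈ s, f i) = ∏ i ∈ s, χ (f i) := by
  classical
  induction s using Finset.induction_on with
  | empty => simp
  | insert a s ha ih => rw [Finset.sum_insert ha, Finset.prod_insert ha, AddChar.map_add_eq_mul, ih]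

omit [DecidableEq F] in
theorem sum_psi (hχ : χ.IsPrimitive) (A : ι → F) (hA : A ≠ 0) : ∑ y : ι → F, psi χ y A = 0 := by
  classical
  obtain ⟨i, hi⟩ : ∃ i, A i ≠ 0 := by
    by_contra h
    push Not at h
    exact hA (funext h)
  have h1 : ∀ y : ι → F, psi χ y A = ∏ i, χ (y i * A i) := by
    intro y
    unfold psi
    exact addChar_sum χ _ _
  rw [Finset.sum_congr rfl (fun y _ => h1 y)]
  have h2 : (∑ y : ι → F, ∏ i, χ (y i * A i)) = ∏ i, ∑ x : F, χ (x * A i) := by
    rw [Finset.prod_univ_sum, Fintype.piFinset_univ]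
  rw [h2]
  apply Finset.prod_eq_zero (Finset.mem_univ i)
  rw [AddChar.sum_mulShift (A i) hχ, if_neg hi]
  simp

/-- Partial Fourier transform. -/
noncomputable def ft (g : Fˣ × (ι → F) → ℝ) (c : Fˣ) (y : ι → F) : ℂ :=
  ∑ A, (g (c, A) : ℂ) * psi χ y A

theorem ft_ne_zero (hχ : χ.IsPrimitive) (g : Fˣ × (ι → F) → ℝ) (hg : g ≠ 0) :
    ∃ c y, ft χ g c y ≠ 0 := by
  by_contra hcon
  push Not at hcon
  apply hg
  funext p
  obtain ⟨c, B⟩ := p
  have h1 : ∑ y : ι → F, ft χ g c y * psi χ y (-B) = 0 := by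
    apply Finset.sum_eq_zero
    intro y _
    rw [hcon c y, zero_mul]
  have h2 : ∑ y : ι → F, ft χ g c y * psi χ y (-B) =
      ∑ A, (g (c, A) : ℂ) * ∑ y : ι → F, psi χ y (A + -B) := by
    simp only [ft, Finset.sum_mul]
    rw [Finset.sum_comm]
    apply Finset.sum_congr rfl
    intro A _
    rw [Finset.mul_sum]
    apply Finset.sum_congr rfl
    intro y _
    rw [psi_add]
    ring
  rw [h2, Finset.sum_eq_single B] at h1
  · rw [add_neg_cancel] at h1
    simp only [psi_zero_right, Finset.sum_const, Finset.card_univ, nsmul_eq_mul, mul_one] at h1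
    have h3 : (Fintype.card (ι → F) : ℂ) ≠ 0 := by
      exact_mod_cast Fintype.card_ne_zero
    have h4 := (mul_eq_zero.1 h1).resolve_right h3
    simpa using h4
  · intro A _ hA
    rw [sum_psi χ hχ, mul_zero]
    intro h
    apply hA
    have := add_eq_zero_iff_eq_neg.1 h
    rw [neg_neg] at this
    exact this
  · intro h
    exact absurd (Finset.mem_univ _) h

omit [DecidableEq F] [DecidableEq ι] in
theorem sum_shift [DecidableEq ι] (g : Fˣ × (ι → F) → ℝ) (c : Fˣ) (y s : ι → F) :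
    ∑ A, (g (c, A + s) : ℂ) * psi χ y A = psi χ y (-s) * ft χ g c y := by
  unfold ft
  rw [Finset.mul_sum]
  apply Fintype.sum_equiv (Equiv.addRight s)
  intro A
  simp only [Equiv.coe_addRight]
  have : psi χ y A = psi χ y (-s) * psi χ y (A + s) := by
    rw [← psi_add]
    congr 1
    abel
  rw [this]
  ring

omit [DecidableEq ι] [DecidableEq κ] in
theorem char_sum (hχ : χ.IsPrimitive) (d : κ → (ι → F)) (y : ι → F) :
    ∑ u : κ, ∑ t ∈ (Finset.univ : Finset F).erase 0, psi χ y (-(t • d u)) =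
      (Fintype.card F : ℂ) * (zc d y : ℂ) - (Fintype.card κ : ℂ) := by
  have h1 : ∀ u : κ, ∑ t ∈ (Finset.univ : Finset F).erase 0, psi χ y (-(t • d u)) =
      (if ∑ i, y i * d u i = 0 then (Fintype.card F : ℂ) else 0) - 1 := by
    intro u
    have h2 : ∀ t : F, psi χ y (-(t • d u)) = χ (t * (-(∑ i, y i * d u i))) := by
      intro t
      unfold psi
      congr 1
      rw [← Finset.sum_neg_distrib, Finset.mul_sum]
      apply Finset.sum_congr rfl
      intro i _
      simp only [Pi.neg_apply, Pi.smul_apply, smul_eq_mul]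
      ring
    rw [Finset.sum_congr rfl (fun t _ => h2 t), Finset.sum_erase_eq_sub (Finset.mem_univ _),
      AddChar.sum_mulShift _ hχ]
    simp only [neg_eq_zero, zero_mul, AddChar.map_zero_eq_one]
    congr 1
    split_ifs <;> simp
  rw [Finset.sum_congr rfl (fun u _ => h1 u), Finset.sum_sub_distrib, ← Finset.sum_filter,
    Finset.sum_const, Finset.sum_const, nsmul_eq_mul, nsmul_eq_mul, mul_one, Finset.card_univ, zc]
  ring

omit [DecidableEq κ] in
theorem ft_eigen (hχ : χ.IsPrimitive) (d : κ → (ι → F)) (hd : DirInj d)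
    (g : Fˣ × (ι → F) → ℝ) (r : ℝ)
    (heq : ∀ p, ∑ q ∈ Finset.univ.filter (fun q => (LG d).Adj p q), g q = r * g p)
    (c : Fˣ) (y : ι → F) :
    (r : ℂ) * ft χ g c y =
      ((Fintype.card F : ℂ) * (zc d y : ℂ) - (Fintype.card κ : ℂ)) *
        ∑ c' ∈ (Finset.univ : Finset Fˣ).erase c, ft χ g c' y := by
  have h1 : ∀ A : ι → F, ((r : ℂ) * (g (c, A) : ℂ)) * psi χ y A =
      ∑ c' ∈ (Finset.univ : Finset Fˣ).erase c, ∑ u : κ, ∑ t ∈ (Finset.univ : Finset F).erase 0,
        (g (c', A + t • d u) : ℂ) * psi χ y A := by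
    intro A
    have h2 := heq (c, A)
    rw [nbr_sum d hd] at h2
    have h3 : ((r : ℂ) * (g (c, A) : ℂ)) = ((r * g (c, A) : ℝ) : ℂ) := by push_cast; ring
    rw [h3, ← h2]
    push_cast
    rw [Finset.sum_mul]
    apply Finset.sum_congr rfl
    intro c' _
    rw [Finset.sum_mul]
    apply Finset.sum_congr rfl
    intro u _
    rw [Finset.sum_mul]
  have h4 : (r : ℂ) * ft χ g c y = ∑ A, ((r : ℂ) * (g (c, A) : ℂ)) * psi χ y A := by
    unfold ft
    rw [Finset.mul_sum]
    apply Finset.sum_congr rfl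
    intro A _
    ring
  rw [h4, Finset.sum_congr rfl (fun A _ => h1 A), Finset.sum_comm, Finset.mul_sum]
  apply Finset.sum_congr rfl
  intro c' _
  rw [Finset.sum_comm, ← char_sum χ hχ d y, Finset.sum_mul]
  apply Finset.sum_congr rfl
  intro u _
  rw [Finset.sum_comm, Finset.sum_mul]
  apply Finset.sum_congr rfl
  intro t _
  exact sum_shift χ g c' y _

end fourier

theorem eig_bound (d : κ → (ι → F)) (hd : DirInj d) (hQ : 2 < Fintype.card F)
    (hK : 0 < Fintype.card κ) (B : ℝ) (hB1 : 1 ≤ B * ((Fintype.card F : ℝ) - 2))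
    (hB2 : ∀ y : ι → F, y ≠ 0 → |(Fintype.card F : ℝ) * (zc d y : ℝ) - (Fintype.card κ : ℝ)| ≤
      B * ((Fintype.card κ : ℝ) * ((Fintype.card F : ℝ) - 1)))
    (g : Fˣ × (ι → F) → ℝ) (hg : g ≠ 0) (hsum : ∑ p, g p = 0) (μ : ℝ)
    (heq : ∀ p, ∑ q ∈ Finset.univ.filter (fun q => (LG d).Adj p q), g q =
      (μ * (degL F κ : ℝ)) * g p) : |μ| ≤ B := by
  set Q : ℝ := (Fintype.card F : ℝ) with hQdef
  set K : ℝ := (Fintype.card κ : ℝ) with hKdef
  have hQ2 : (2 : ℝ) < Q := by rw [hQdef]; exact_mod_cast hQ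
  have hK0 : (0 : ℝ) < K := by rw [hKdef]; exact_mod_cast hK
  have hdeg : (degL F κ : ℝ) = (Q - 2) * (K * (Q - 1)) := by
    unfold degL
    rw [Nat.cast_mul, Nat.cast_mul, Nat.cast_sub (by omega), Nat.cast_sub (by omega)]
    push_cast
    ring
  set χ := AddChar.FiniteField.primitiveChar_to_Complex F with hχdef
  have hχ : χ.IsPrimitive := AddChar.FiniteField.primitiveChar_to_Complex_isPrimitive F
  obtain ⟨c0, y, hcy⟩ := ft_ne_zero χ hχ g hg
  have hE := fun c => ft_eigen χ hχ d hd g _ heq c y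
  by_cases hy : y = 0
  · subst hy
    have hz : zc d (0 : ι → F) = Fintype.card κ := by
      unfold zc
      simp
    have hs : ∑ c : Fˣ, ft χ g c 0 = 0 := by
      unfold ft
      simp only [psi_zero_left, mul_one]
      have h1 : ((∑ p, g p : ℝ) : ℂ) = 0 := by rw [hsum]; simp
      rw [Fintype.sum_prod_type] at h1
      push_cast at h1
      exact h1
    have h2 := hE c0
    rw [hz, Finset.sum_erase_eq_sub (Finset.mem_univ _), hs, zero_sub] at h2
    have h3 : ((μ * (degL F κ : ℝ) : ℝ) : ℂ) + ((Q * K - K : ℝ) : ℂ) = 0 := by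
      have h4 : (((μ * (degL F κ : ℝ) : ℝ) : ℂ) + ((Q * K - K : ℝ) : ℂ)) * ft χ g c0 0 = 0 := by
        push_cast
        push_cast at h2
        rw [hQdef, hKdef]
        push_cast
        linear_combination h2
      exact (mul_eq_zero.1 h4).resolve_right hcy
    have h5 : μ * (degL F κ : ℝ) + (Q * K - K) = 0 := by exact_mod_cast h3
    rw [hdeg] at h5
    have h6 : (K * (Q - 1)) * (μ * (Q - 2) + 1) = 0 := by linear_combination h5
    have h7 : K * (Q - 1) ≠ 0 := by
      apply mul_ne_zero hK0.ne'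
      linarith
    have h8 := (mul_eq_zero.1 h6).resolve_left h7
    have h9 : |μ| * (Q - 2) = 1 := by
      rw [← abs_of_pos (show 0 < Q - 2 by linarith), ← abs_mul]
      have : μ * (Q - 2) = -1 := by linarith
      rw [this]
      simp
    have h10 : |μ| * (Q - 2) ≤ B * (Q - 2) := by linarith
    exact le_of_mul_le_mul_right h10 (by linarith)
  · obtain ⟨c, _, hc⟩ := Finset.exists_max_image (Finset.univ : Finset Fˣ) (fun c => ‖ft χ g c y‖)
      ⟨1, Finset.mem_univ _⟩
    have hm : 0 < ‖ft χ g c y‖ := lt_of_lt_of_le (norm_pos_iff.2 hcy) (hc c0 (Finset.mem_univ _))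
    have h1 := congrArg (fun z => ‖z‖) (hE c)
    simp only [norm_mul] at h1
    have h2 : ‖∑ c' ∈ (Finset.univ : Finset Fˣ).erase c, ft χ g c' y‖ ≤ (Q - 2) * ‖ft χ g c y‖ := by
      refine (norm_sum_le_of_le _ (fun c' _ => hc c' (Finset.mem_univ _))).trans ?_
      rw [Finset.sum_const, nsmul_eq_mul, Finset.card_erase_of_mem (Finset.mem_univ _),
        Finset.card_univ, Fintype.card_units]
      apply le_of_eq
      congr 1
      rw [Nat.cast_sub (by omega), Nat.cast_sub (by omega)]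
      push_cast
      ring
    have h3 : ‖((Fintype.card F : ℂ) * (zc d y : ℂ) - (Fintype.card κ : ℂ))‖ ≤
        B * (K * (Q - 1)) := by
      have e : ((Fintype.card F : ℂ) * (zc d y : ℂ) - (Fintype.card κ : ℂ)) =
          ((Q * (zc d y : ℝ) - K : ℝ) : ℂ) := by
        rw [hQdef, hKdef]
        push_cast
        ring
      rw [e, Complex.norm_real, Real.norm_eq_abs]
      exact hB2 y hy
    have h4 : ‖((μ * (degL F κ : ℝ) : ℝ) : ℂ)‖ = |μ| * ((Q - 2) * (K * (Q - 1))) := by
      have hpos : 0 < (Q - 2) * (K * (Q - 1)) := by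
        apply mul_pos (by linarith)
        apply mul_pos hK0
        linarith
      rw [Complex.norm_real, Real.norm_eq_abs, abs_mul, hdeg, abs_of_pos hpos]
    rw [h4] at h1
    have hB0 : 0 ≤ B * (K * (Q - 1)) := (norm_nonneg _).trans h3
    have h5 : |μ| * ((Q - 2) * (K * (Q - 1))) * ‖ft χ g c y‖ ≤
        (B * (K * (Q - 1))) * ((Q - 2) * ‖ft χ g c y‖) := by
      rw [h1]
      exact mul_le_mul h3 h2 (norm_nonneg _) hB0
    have h6 : 0 < (Q - 2) * (K * (Q - 1)) * ‖ft χ g c y‖ := by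
      apply mul_pos _ hm
      apply mul_pos (by linarith)
      apply mul_pos hK0
      linarith
    have h7 : |μ| * ((Q - 2) * (K * (Q - 1)) * ‖ft χ g c y‖) ≤
        B * ((Q - 2) * (K * (Q - 1)) * ‖ft χ g c y‖) := by
      linarith
    exact le_of_mul_le_mul_right h7 h6

end Pool.Agent.Work.MP_6591ba_co
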