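import Mathlib
import Pool.Agent.Work.MP_6591ba_co.Defs

set_option autoImplicit false

namespace Pool.Agent.Work.MP_6591ba_co

open Finset Matrix

theorem two_of_getD {l : List ℝ} (hl : l.Pairwise (· ≥ ·)) {B : ℝ} (hB : 0 ≤ B)
    (h : B < l.getD 1 0) : 2 ≤ l.countP (fun x => decide (B < x)) := by
  match l, hl, h with
  | [], _, h => simp at h; linarith
  | [a], _, h => simp at h; linarith
  | a :: b :: t, hl, h =>
    have hb : B < b := by simpa using h
    have hab : b ≤ a := by
      have := (List.pairwise_cons.1 hl).1 b List.mem_cons_self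
      exact this
    have ha : B < a := lt_of_lt_of_le hb hab
    rw [List.countP_cons, List.countP_cons]
    simp [ha, hb]

theorem second_le_of {W : Type} [Fintype W] [DecidableEq W] (P : Matrix W W ℝ) (hP : P.IsHermitian)
    (hone : ∀ w, ∑ v, P v w = 1) (B : ℝ) (hB0 : 0 ≤ B)
    (hB : ∀ g : W → ℝ, g ≠ 0 → ∑ w, g w = 0 → ∀ μ : ℝ, P *ᵥ g = μ • g → |μ| ≤ B) :
    ((P.charpoly.roots.map (fun x => |x|)).sort (· ≥ ·)).getD 1 0 ≤ B := by
  by_contra hcon
  push Not at hcon
  set m := P.charpoly.roots.map (fun x => |x|) with hm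
  have h1 := two_of_getD (Multiset.pairwise_sort m (· ≥ ·)) hB0 hcon
  have h2 : 2 ≤ Multiset.countP (fun x => B < x) m := by
    rw [← Multiset.sort_eq m (· ≥ ·)]
    rw [Multiset.coe_countP]
    exact h1
  rw [hm, hP.roots_charpoly_eq_eigenvalues, Multiset.map_map, Multiset.countP_map] at h2
  have h3 : 2 ≤ (Finset.univ.filter (fun i => B < |hP.eigenvalues i|)).card := by
    refine h2.trans (le_of_eq ?_)
    rfl
  obtain ⟨i, hi, j, hj, hij⟩ := Finset.one_lt_card.1 h3
  rw [Finset.mem_filter] at hi hj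
  have hv : ∀ k, P *ᵥ (hP.eigenvectorBasis k).ofLp = hP.eigenvalues k • (hP.eigenvectorBasis k).ofLp := by
    intro k
    exact hP.mulVec_eigenvectorBasis k
  have hne : ∀ k, (hP.eigenvectorBasis k).ofLp ≠ 0 := by
    intro k h0
    have := hP.eigenvectorBasis.orthonormal.ne_zero k
    apply this
    ext x
    exact congrFun h0 x
  have hs : ∀ k, B < |hP.eigenvalues k| → ∑ w, (hP.eigenvectorBasis k).ofLp w ≠ 0 := by
    intro k hk h0
    have := hB _ (hne k) h0 _ (hv k)
    linarith
  have hsum : ∀ (g : W → ℝ), ∑ w, (P *ᵥ g) w = ∑ w, g w := by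
    intro g
    simp only [Matrix.mulVec, dotProduct]
    rw [Finset.sum_comm]
    apply Finset.sum_congr rfl
    intro w _
    rw [← Finset.sum_mul, hone, one_mul]
  have heig : ∀ k, B < |hP.eigenvalues k| → hP.eigenvalues k = 1 := by
    intro k hk
    have h4 := hsum (hP.eigenvectorBasis k).ofLp
    rw [hv k] at h4
    simp only [Pi.smul_apply, smul_eq_mul] at h4
    rw [← Finset.mul_sum] at h4
    have h5 := hs k hk
    have h6 : (hP.eigenvalues k - 1) * ∑ w, (hP.eigenvectorBasis k).ofLp w = 0 := by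
      linear_combination h4
    rcases mul_eq_zero.1 h6 with h7 | h7
    · linarith
    · exact absurd h7 h5
  set vi := (hP.eigenvectorBasis i).ofLp with hvi
  set vj := (hP.eigenvectorBasis j).ofLp with hvj
  set g : W → ℝ := (∑ w, vj w) • vi - (∑ w, vi w) • vj with hg
  have hg0 : ∑ w, g w = 0 := by
    simp only [hg, Pi.sub_apply, Pi.smul_apply, smul_eq_mul, Finset.sum_sub_distrib,
      ← Finset.mul_sum]
    ring
  have hPg : P *ᵥ g = (1 : ℝ) • g := by
    rw [hg, Matrix.mulVec_sub, Matrix.mulVec_smul, Matrix.mulVec_smul, hv i, hv j,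
      heig i hi.2, heig j hj.2]
    simp only [one_smul]
    rfl
  have hgne : g ≠ 0 := by
    intro h0
    have h7 : (∑ w, vj w) • hP.eigenvectorBasis i - (∑ w, vi w) • hP.eigenvectorBasis j = 0 := by
      ext x
      exact congrFun h0 x
    have h8 := congrArg (fun x => inner ℝ (hP.eigenvectorBasis i) x) h7
    simp only [inner_sub_right, inner_smul_right, inner_zero_right] at h8
    rw [hP.eigenvectorBasis.orthonormal.inner_eq_zero hij, real_inner_self_eq_norm_sq,
      hP.eigenvectorBasis.orthonormal.norm_eq_one] at h8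
    exact hs j hj.2 (by linarith)
  have h8 := hB g hgne hg0 1 hPg
  have h9 := hi.2
  rw [heig i hi.2] at h9
  linarith

end Pool.Agent.Work.MP_6591ba_co
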