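import Mathlib
import Pool.Agent.Work.MP_6591ba_co.Second
import Pool.Agent.Work.MP_6591ba_co.Link

set_option autoImplicit false

namespace Pool.Agent.Work.MP_6591ba_co

open Finset Matrix

theorem walkMatrix_iso {W W' : Type} (G : SimpleGraph W) (G' : SimpleGraph W') (e : W ≃ W')
    (h : ∀ a b, G'.Adj (e a) (e b) ↔ G.Adj a b) :
    walkMatrix G' = Matrix.reindex e e (walkMatrix G) := by
  have hn : ∀ a, (G'.neighborSet (e a)).ncard = (G.neighborSet a).ncard := by
    intro a
    have : G'.neighborSet (e a) = e '' (G.neighborSet a) := by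
      ext w
      constructor
      · intro hw
        refine ⟨e.symm w, ?_, e.apply_symm_apply w⟩
        have h1 : G'.Adj (e a) (e (e.symm w)) := by
          rw [e.apply_symm_apply]
          exact hw
        exact (h _ _).1 h1
      · rintro ⟨b, hb, rfl⟩
        exact (h _ _).2 hb
    rw [this, Set.ncard_image_of_injective _ e.injective]
  ext v w
  obtain ⟨a, rfl⟩ := e.surjective v
  obtain ⟨b, rfl⟩ := e.surjective w
  rw [Matrix.reindex_apply, Matrix.submatrix_apply, Equiv.symm_apply_apply,
    Equiv.symm_apply_apply]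
  unfold walkMatrix
  rw [hn]
  by_cases hab : G.Adj a b
  · rw [if_pos hab, if_pos ((h a b).2 hab)]
  · rw [if_neg hab, if_neg (fun h1 => hab ((h a b).1 h1))]

theorem secondEigenvalue_iso {W W' : Type} [Finite W] [Finite W'] (G : SimpleGraph W)
    (G' : SimpleGraph W') (e : W ≃ W') (h : ∀ a b, G'.Adj (e a) (e b) ↔ G.Adj a b) :
    secondEigenvalue G' = secondEigenvalue G := by
  have key : ∀ (i1 : Fintype W) (i2 : Fintype W') (d1 : DecidableEq W) (d2 : DecidableEq W'),
      (walkMatrix G').charpoly = (walkMatrix G).charpoly := by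
    intro i1 i2 d1 d2
    rw [walkMatrix_iso G G' e h, Matrix.charpoly_reindex]
  unfold secondEigenvalue walkEigenvalues
  rw [key _ _ _ _]

variable {F ι κ : Type} [Field F] [Fintype F] [DecidableEq F] [Fintype ι] [DecidableEq ι]
  [Fintype κ]

theorem ncard_LG (d : κ → (ι → F)) (hd : DirInj d) (p : Fˣ × (ι → F)) :
    ((LG d).neighborSet p).ncard = degL F κ := by
  rw [← card_nbr d hd p, ← Set.ncard_coe_finset]
  congr 1
  ext q
  simp [SimpleGraph.mem_neighborSet]

theorem second_LG (d : κ → (ι → F)) (hd : DirInj d) (hQ : 2 < Fintype.card F)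
    (hK : 0 < Fintype.card κ) (B : ℝ) (hB1 : 1 ≤ B * ((Fintype.card F : ℝ) - 2))
    (hB2 : ∀ y : ι → F, y ≠ 0 → |(Fintype.card F : ℝ) * (zc d y : ℝ) - (Fintype.card κ : ℝ)| ≤
      B * ((Fintype.card κ : ℝ) * ((Fintype.card F : ℝ) - 1))) :
    secondEigenvalue (LG d) ≤ B := by
  classical
  have hQ2 : (2 : ℝ) < Fintype.card F := by exact_mod_cast hQ
  have hB0 : 0 ≤ B := by
    by_contra h
    push Not at h
    nlinarith
  have hdpos : 0 < degL F κ := by
    unfold degL
    apply Nat.mul_pos (by omega)
    apply Nat.mul_pos hK (by omega)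
  have hdR : (0 : ℝ) < degL F κ := by exact_mod_cast hdpos
  have hwalk : ∀ p q, walkMatrix (LG d) p q = if (LG d).Adj p q then 1 / (degL F κ : ℝ) else 0 := by
    intro p q
    unfold walkMatrix
    rw [ncard_LG d hd]
  have key : ∀ (inst : Fintype (Fˣ × (ι → F))) (dec : DecidableEq (Fˣ × (ι → F))),
      ((((walkMatrix (LG d)).charpoly.roots).map (fun x => |x|)).sort (· ≥ ·)).getD 1 0 ≤ B := by
    intro inst dec
    have hinst : inst = instFintypeProd Fˣ (ι → F) := Subsingleton.elim _ _
    subst hinst
    have hmul : ∀ (g : Fˣ × (ι → F) → ℝ) p, (walkMatrix (LG d) *ᵥ g) p =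
        (1 / (degL F κ : ℝ)) * ∑ q ∈ Finset.univ.filter (fun q => (LG d).Adj p q), g q := by
      intro g p
      simp only [Matrix.mulVec, dotProduct, hwalk]
      rw [Finset.mul_sum, Finset.sum_filter]
      apply Finset.sum_congr rfl
      intro q _
      split_ifs
      · rfl
      · rw [zero_mul]
    apply second_le_of
    · ext p q
      simp only [Matrix.conjTranspose_apply, star_trivial, hwalk]
      simp only [(LG d).adj_comm q p]
    · intro w
      have h1 : ∀ v, walkMatrix (LG d) v w = if (LG d).Adj w v then 1 / (degL F κ : ℝ) else 0 := by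
        intro v
        rw [hwalk]
        simp only [(LG d).adj_comm v w]
      rw [Finset.sum_congr rfl (fun v _ => h1 v), ← Finset.sum_filter, Finset.sum_const,
        nsmul_eq_mul]
      have h2 : (Finset.univ.filter (fun v => (LG d).Adj w v)).card = degL F κ :=
        card_nbr d hd w
      rw [h2]
      field_simp
    · exact hB0
    · intro g hg hs μ hμ
      apply eig_bound d hd hQ hK B hB1 hB2 g hg _ μ
      · intro p
        have h3 := congrFun hμ p
        rw [hmul, Pi.smul_apply, smul_eq_mul] at h3
        have h4 : ∑ q ∈ Finset.univ.filter (fun q => (LG d).Adj p q), g q =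
            (degL F κ : ℝ) * (μ * g p) := by
          rw [← h3]
          field_simp
        have h5 : ∑ q ∈ Finset.univ.filter (fun q => (LG d).Adj p q), g q = (μ * (degL F κ : ℝ)) * g p := by
          rw [h4]; ring
        exact h5
      · exact hs
  exact key _ _

end Pool.Agent.Work.MP_6591ba_co
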