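import Mathlib
import Pool.Agent.Work.MP_6591ba_co.LinkEig

set_option autoImplicit false

namespace Pool.Agent.Work.MP_6591ba_co

variable {V P : Type} [AddCommGroup V]

/-- The triangle relation. -/
def Tri (σ : P → V) (R : SimpleGraph P) (x y z : V) : Prop :=
  ∃ p q, R.Adj p q ∧ x + y = σ p ∧ x + z = σ q

theorem Tri.swap {σ : P → V} {R : SimpleGraph P} {x y z : V} (h : Tri σ R x y z) :
    Tri σ R x z y := by
  obtain ⟨p, q, h1, h2, h3⟩ := h
  exact ⟨q, p, h1.symm, h3, h2⟩

theorem Tri.rot {σ : P → V} {R : SimpleGraph P} (h2 : ∀ x : V, x + x = 0)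
    (hcl : ∀ p q, R.Adj p q → ∃ r, σ p + σ q = σ r ∧ R.Adj p r) {x y z : V}
    (h : Tri σ R x y z) : Tri σ R y x z := by
  obtain ⟨p, q, h1, h3, h4⟩ := h
  obtain ⟨r, h5, h6⟩ := hcl p q h1
  refine ⟨p, r, h6, by rw [add_comm]; exact h3, ?_⟩
  rw [← h5, ← h3, ← h4]
  have : x + y + (x + z) = (x + x) + (y + z) := by abel
  rw [this, h2, zero_add]

/-- The complex built from `σ` and `R`. -/
def bigX (σ : P → V) (R : SimpleGraph P) (h2 : ∀ x : V, x + x = 0) (h0 : ∀ p, σ p ≠ 0) :
    TwoComplex V where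
  graph :=
    { Adj := fun x y => x + y ∈ Set.range σ
      symm := ⟨by
        intro x y h
        rw [add_comm]
        exact h⟩
      loopless := ⟨by
        rintro x ⟨p, hp⟩
        rw [h2] at hp
        exact h0 p hp⟩ }
  tri := {t | t.card = 3 ∧ ∀ x ∈ t, ∀ y ∈ t, ∀ z ∈ t, x ≠ y → x ≠ z → y ≠ z → Tri σ R x y z}
  card_tri := fun t ht => ht.1
  edge_of_tri := by
    classical
    intro t ht x hx y hy hxy
    have h3 : 2 < t.card := by rw [ht.1]; norm_num
    have : ∃ z ∈ t, z ∉ ({x, y} : Finset V) := by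
      by_contra hcon
      push Not at hcon
      have h4 : t ⊆ {x, y} := hcon
      have h5 := Finset.card_le_card h4
      have h6 := Finset.card_le_two (a := x) (b := y)
      omega
    obtain ⟨z, hz, hzn⟩ := this
    simp only [Finset.mem_insert, Finset.mem_singleton, not_or] at hzn
    obtain ⟨p, q, _, h7, _⟩ := ht.2 x hx y hy z hz hxy (fun h => hzn.1 h.symm) (fun h => hzn.2 h.symm)
    exact ⟨p, h7.symm⟩

theorem bigX_adj (σ : P → V) (R : SimpleGraph P) (h2 : ∀ x : V, x + x = 0) (h0 : ∀ p, σ p ≠ 0)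
    (x y : V) : (bigX σ R h2 h0).graph.Adj x y ↔ x + y ∈ Set.range σ := Iff.rfl

theorem link_adj (σ : P → V) (R : SimpleGraph P) (h2 : ∀ x : V, x + x = 0) (h0 : ∀ p, σ p ≠ 0)
    (hinj : Function.Injective σ)
    (hcl : ∀ p q, R.Adj p q → ∃ r, σ p + σ q = σ r ∧ R.Adj p r)
    (u : V) (v w : (bigX σ R h2 h0).graph.neighborSet u) :
    ((bigX σ R h2 h0).link u).Adj v w ↔ Tri σ R u v.1 w.1 := by
  classical
  have hlink : ((bigX σ R h2 h0).link u).Adj v w ↔
      (({u, v.1, w.1} : Finset V).card = 3 ∧ ∀ x ∈ ({u, v.1, w.1} : Finset V),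
        ∀ y ∈ ({u, v.1, w.1} : Finset V), ∀ z ∈ ({u, v.1, w.1} : Finset V),
        x ≠ y → x ≠ z → y ≠ z → Tri σ R x y z) := by
    have e : ∀ (d : DecidableEq V), (@insert V (Finset V) (@Finset.instInsert V d) u
        (@insert V (Finset V) (@Finset.instInsert V d) v.1 {w.1})) = ({u, v.1, w.1} : Finset V) := by
      intro d
      ext x
      simp
    show _ ∈ _ ↔ _
    rw [e]
    rfl
  rw [hlink]
  constructor
  · rintro ⟨hc, h⟩
    have huv : u ≠ v.1 := by
      intro h1
      rw [← h1] at hc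
      have : ({u, u, w.1} : Finset V).card ≤ 2 := by
        rw [Finset.insert_eq_of_mem (Finset.mem_insert_self _ _)]
        exact Finset.card_le_two
      omega
    have huw : u ≠ w.1 := by
      intro h1
      rw [← h1] at hc
      have : ({u, v.1, u} : Finset V).card ≤ 2 := by
        rw [Finset.insert_eq_of_mem (by simp)]
        exact Finset.card_le_two
      omega
    have hvw : v.1 ≠ w.1 := by
      intro h1
      rw [← h1] at hc
      have : ({u, v.1, v.1} : Finset V).card ≤ 2 := by
        rw [Finset.pair_eq_singleton]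
        exact Finset.card_le_two
      omega
    exact h u (by simp) v.1 (by simp) w.1 (by simp) huv huw hvw
  · intro h
    obtain ⟨p, q, hpq, hp, hq⟩ := h
    have huv : u ≠ v.1 := by
      intro h1
      rw [← h1, h2] at hp
      exact h0 p hp.symm
    have huw : u ≠ w.1 := by
      intro h1
      rw [← h1, h2] at hq
      exact h0 q hq.symm
    have hvw : v.1 ≠ w.1 := by
      intro h1
      rw [h1, hq] at hp
      exact hpq.ne (hinj hp.symm)
    have t1 : Tri σ R u v.1 w.1 := ⟨p, q, hpq, hp, hq⟩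
    have t2 := t1.swap
    have t3 := t1.rot h2 hcl
    have t4 := t3.swap
    have t5 := t2.rot h2 hcl
    have t6 := t5.swap
    refine ⟨Finset.card_eq_three.2 ⟨u, v.1, w.1, huv, huw, hvw, rfl⟩, ?_⟩
    intro x hx y hy z hz hxy hxz hyz
    simp only [Finset.mem_insert, Finset.mem_singleton] at hx hy hz
    rcases hx with rfl | rfl | rfl <;> rcases hy with rfl | rfl | rfl <;>
      rcases hz with rfl | rfl | rfl <;>
      first
        | assumption
        | exact absurd rfl hxy
        | exact absurd rfl hxz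
        | exact absurd rfl hyz

/-- The neighbours of `u`. -/
noncomputable def nbrEquiv (σ : P → V) (R : SimpleGraph P) (h2 : ∀ x : V, x + x = 0)
    (h0 : ∀ p, σ p ≠ 0) (hinj : Function.Injective σ) (u : V) :
    P ≃ (bigX σ R h2 h0).graph.neighborSet u :=
  Equiv.ofBijective (fun p => ⟨u + σ p, by
    show u + (u + σ p) ∈ Set.range σ
    rw [← add_assoc, h2, zero_add]
    exact ⟨p, rfl⟩⟩) (by
    constructor
    · intro p q h
      have := congrArg Subtype.val h
      simp only [add_right_inj] at this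
      exact hinj this
    · rintro ⟨v, p, hp⟩
      refine ⟨p, ?_⟩
      apply Subtype.ext
      simp only
      rw [hp, ← add_assoc, h2, zero_add])

theorem nbrEquiv_coe (σ : P → V) (R : SimpleGraph P) (h2 : ∀ x : V, x + x = 0)
    (h0 : ∀ p, σ p ≠ 0) (hinj : Function.Injective σ) (u : V) (p : P) :
    (nbrEquiv σ R h2 h0 hinj u p).1 = u + σ p := rfl

theorem link_iso (σ : P → V) (R : SimpleGraph P) (h2 : ∀ x : V, x + x = 0) (h0 : ∀ p, σ p ≠ 0)
    (hinj : Function.Injective σ)
    (hcl : ∀ p q, R.Adj p q → ∃ r, σ p + σ q = σ r ∧ R.Adj p r) (u : V) (p q : P) :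
    ((bigX σ R h2 h0).link u).Adj (nbrEquiv σ R h2 h0 hinj u p) (nbrEquiv σ R h2 h0 hinj u q) ↔
      R.Adj p q := by
  rw [link_adj σ R h2 h0 hinj hcl, nbrEquiv_coe, nbrEquiv_coe]
  have e : ∀ p, u + (u + σ p) = σ p := by
    intro p
    rw [← add_assoc, h2, zero_add]
  constructor
  · rintro ⟨p', q', h, h3, h4⟩
    rw [e] at h3 h4
    rw [hinj h3, hinj h4]
    exact h
  · intro h
    exact ⟨p, q, h, e p, e q⟩

theorem bigX_connected (σ : P → V) (R : SimpleGraph P) (h2 : ∀ x : V, x + x = 0)
    (h0 : ∀ p, σ p ≠ 0) (hgen : AddSubgroup.closure (Set.range σ) = ⊤) :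
    (bigX σ R h2 h0).graph.Connected := by
  have key : ∀ s ∈ AddSubgroup.closure (Set.range σ), ∀ x : V,
      (bigX σ R h2 h0).graph.Reachable x (x + s) := by
    intro s hs
    induction hs using AddSubgroup.closure_induction with
    | mem s hs =>
      intro x
      apply SimpleGraph.Adj.reachable
      rw [bigX_adj, ← add_assoc, h2, zero_add]
      exact hs
    | zero =>
      intro x
      rw [add_zero]
    | add a b _ _ ha hb =>
      intro x
      rw [← add_assoc]
      exact (ha x).trans (hb (x + a))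
    | neg a _ ha =>
      intro x
      have : -a = a := by
        rw [neg_eq_iff_add_eq_zero]
        exact h2 a
      rw [this]
      exact ha x
  have : Nonempty V := ⟨0⟩
  refine SimpleGraph.Connected.mk ?_
  intro x y
  have h3 := key (y - x) (by rw [hgen]; exact AddSubgroup.mem_top _) x
  rw [add_sub_cancel] at h3
  exact h3

end Pool.Agent.Work.MP_6591ba_co
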