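import Mathlib

set_option autoImplicit false

namespace Pool.Agent.Work.MP_6591ba_co

open Module

variable {F U : Type*} [Field F] [AddCommGroup U] [Module F U]

/-- Common kernel of a list of operators. -/
def kerAll (Ts : List (U →ₗ[F] U)) : Submodule F U where
  carrier := {x | ∀ T ∈ Ts, T x = 0}
  add_mem' := by
    intro a b ha hb T hT
    rw [map_add, ha T hT, hb T hT, add_zero]
  zero_mem' := by
    intro T _
    exact map_zero T
  smul_mem' := by
    intro c x hx T hT
    rw [map_smul, hx T hT, smul_zero]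

theorem mem_kerAll (Ts : List (U →ₗ[F] U)) (x : U) : x ∈ kerAll Ts ↔ ∀ T ∈ Ts, T x = 0 := Iff.rfl

theorem finrank_le_inf_ker_add [FiniteDimensional F U] (T : U →ₗ[F] U) (P : Submodule F U) :
    finrank F P ≤ finrank F ↥(P ⊓ LinearMap.ker T) + finrank F ↥(P.map T) := by
  have h := LinearMap.finrank_range_add_finrank_ker (T.domRestrict P)
  have h1 : finrank F ↥(LinearMap.range (T.domRestrict P)) = finrank F ↥(P.map T) := by
    rw [LinearMap.range_domRestrict]
  have h2 : finrank F ↥(LinearMap.ker (T.domRestrict P)) ≤ finrank F ↥(P ⊓ LinearMap.ker T) := by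
    have h3 : finrank F ↥(LinearMap.ker (T.domRestrict P)) =
        finrank F ↥((LinearMap.ker (T.domRestrict P)).map P.subtype) :=
      (Submodule.finrank_map_subtype_eq P _).symm
    rw [h3]
    apply Submodule.finrank_mono
    rintro x ⟨y, hy, rfl⟩
    refine ⟨y.2, ?_⟩
    exact hy
  omega

theorem rank_filtration [FiniteDimensional F U] (Ts : List (U →ₗ[F] U)) :
    ∀ P : ℕ → Submodule F U,
      (∀ T ∈ Ts, ∀ T' ∈ Ts, ∀ x, T (T' x) = T' (T x)) →
      Monotone P →
      (∀ T ∈ Ts, ∀ x ∈ P 0, T x = 0) →
      (∀ T ∈ Ts, ∀ j, ∀ x ∈ P (j + 1), T x ∈ P j) →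
      ∀ l, finrank F (P l) ≤ (Ts.length + l).choose l * finrank F ↥(P l ⊓ kerAll Ts) := by
  induction Ts with
  | nil =>
    intro P _ _ _ _ l
    have : (P l ⊓ kerAll ([] : List (U →ₗ[F] U))) = P l := by
      apply le_antisymm inf_le_left
      intro x hx
      exact ⟨hx, by intro T hT; simp at hT⟩
    rw [this]
    simp
  | cons T Ts ih =>
    intro P hc hP h0 h1
    have hP' : ∀ l, finrank F ↥(P l ⊓ LinearMap.ker T) ≤
        (Ts.length + l).choose l * finrank F ↥(P l ⊓ kerAll (T :: Ts)) := by
      intro l
      have := ih (fun j => P j ⊓ LinearMap.ker T)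
        (fun T1 h1 T2 h2 => hc T1 (List.mem_cons_of_mem _ h1) T2 (List.mem_cons_of_mem _ h2))
        (fun i j hij => inf_le_inf_right _ (hP hij))
        (fun T1 hT1 x hx => h0 T1 (List.mem_cons_of_mem _ hT1) x hx.1)
        (by
          intro T1 hT1 j x hx
          refine ⟨h1 T1 (List.mem_cons_of_mem _ hT1) j x hx.1, ?_⟩
          have h3 := hc T1 (List.mem_cons_of_mem _ hT1) T List.mem_cons_self x
          have h4 : T x = 0 := hx.2
          rw [h4, map_zero] at h3
          exact h3.symm) l
      refine this.trans (Nat.mul_le_mul_left _ ?_)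
      apply Submodule.finrank_mono
      rintro x ⟨⟨hx1, hx2⟩, hx3⟩
      refine ⟨hx1, ?_⟩
      intro T1 hT1
      rcases List.mem_cons.1 hT1 with rfl | hT1
      · exact hx2
      · exact hx3 T1 hT1
    intro l
    induction l with
    | zero =>
      have : (P 0 ⊓ kerAll (T :: Ts)) = P 0 := by
        apply le_antisymm inf_le_left
        intro x hx
        exact ⟨hx, fun T1 hT1 => h0 T1 hT1 x hx⟩
      rw [this]
      simp
    | succ l ihl =>
      have e1 := finrank_le_inf_ker_add T (P (l + 1))
      have e2 : finrank F ↥((P (l + 1)).map T) ≤ finrank F ↥(P l) := by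
        apply Submodule.finrank_mono
        rintro x ⟨y, hy, rfl⟩
        exact h1 T List.mem_cons_self l y hy
      have e3 : finrank F ↥(P l ⊓ kerAll (T :: Ts)) ≤ finrank F ↥(P (l + 1) ⊓ kerAll (T :: Ts)) := by
        apply Submodule.finrank_mono
        exact inf_le_inf_right _ (hP (Nat.le_succ l))
      have e4 := hP' (l + 1)
      set w := finrank F ↥(P (l + 1) ⊓ kerAll (T :: Ts)) with hw
      have e5 : finrank F (P l) ≤ ((T :: Ts).length + l).choose l * w :=
        ihl.trans (Nat.mul_le_mul_left _ e3)
      have e6 : ((T :: Ts).length + (l + 1)).choose (l + 1) =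
          ((T :: Ts).length + l).choose l + (Ts.length + (l + 1)).choose (l + 1) := by
        have : (T :: Ts).length + (l + 1) = ((T :: Ts).length + l) + 1 := by omega
        rw [this, Nat.choose_succ_succ]
        congr 2
        simp only [List.length_cons]
        omega
      rw [e6, add_mul]
      omega

end Pool.Agent.Work.MP_6591ba_co
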