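import Mathlib
import Pool.Agent.Work.MP_6591ba_co.Rank

set_option autoImplicit false

namespace Pool.Agent.Work.MP_6591ba_co

open Module Finset

variable {F ι : Type*} [Field F] [Fintype F] [Fintype ι] [DecidableEq ι]

/-- Multilinear monomial functions. -/
def mono (I : Finset ι) : (ι → F) → F := fun A => ∏ i ∈ I, A i

omit [Fintype F] [Fintype ι] in
theorem mono_indicator (I J : Finset ι) :
    mono (F := F) I (fun i => if i ∈ J then 1 else 0) = if I ⊆ J then 1 else 0 := by
  unfold mono
  split_ifs with h
  · apply Finset.prod_eq_one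
    intro i hi
    rw [if_pos (h hi)]
  · rw [Finset.not_subset] at h
    obtain ⟨i, hi, hij⟩ := h
    apply Finset.prod_eq_zero hi
    rw [if_neg hij]

omit [Fintype F] in
theorem mono_linearIndependent :
    LinearIndependent F (fun I : Finset ι => (mono I : (ι → F) → F)) := by
  rw [Fintype.linearIndependent_iff]
  intro g hg
  have key : ∀ n : ℕ, ∀ I : Finset ι, I.card = n → g I = 0 := by
    intro n
    induction n using Nat.strong_induction_on with
    | _ n ih =>
      intro I hI
      have h := congrFun hg (fun i => if i ∈ I then 1 else 0)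
      simp only [Finset.sum_apply, Pi.smul_apply, mono_indicator, smul_eq_mul, Pi.zero_apply] at h
      rw [Finset.sum_eq_single I] at h
      · simpa using h
      · intro J _ hJ
        split_ifs with hJI
        · rw [ih J.card _ J rfl, zero_mul]
          rw [← hI]
          exact Finset.card_lt_card (Finset.ssubset_iff_subset_ne.2 ⟨hJI, hJ⟩)
        · rw [mul_zero]
      · intro h1
        exact absurd (Finset.mem_univ _) h1
  intro I
  exact key _ I rfl

/-- Span of multilinear monomials of degree at most `2 j`. -/
def Pj (F ι : Type*) [Field F] [Fintype ι] [DecidableEq ι] (j : ℕ) : Submodule F ((ι → F) → F) :=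
  Submodule.span F {G | ∃ I : Finset ι, I.card ≤ 2 * j ∧ G = mono I}

omit [Fintype F] in
theorem mono_mem (I : Finset ι) (j : ℕ) (h : I.card ≤ 2 * j) : (mono I : (ι → F) → F) ∈ Pj F ι j :=
  Submodule.subset_span ⟨I, h, rfl⟩

omit [Fintype F] in
theorem Pj_mono : Monotone (Pj F ι) := by
  intro i j hij
  apply Submodule.span_mono
  rintro G ⟨I, hI, rfl⟩
  exact ⟨I, by omega, rfl⟩

theorem le_finrank_Pj (l : ℕ) : (Fintype.card ι).choose (2 * l) ≤ finrank F ↥(Pj F ι l) := by
  have hcard : Fintype.card {I : Finset ι // I ∈ Finset.powersetCard (2 * l) univ} =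
      (Fintype.card ι).choose (2 * l) := by
    rw [Fintype.card_coe, Finset.card_powersetCard, Finset.card_univ]
  rw [← hcard]
  let v : {I : Finset ι // I ∈ Finset.powersetCard (2 * l) univ} → ↥(Pj F ι l) := fun I =>
    ⟨mono I.1, mono_mem I.1 l (by
      have := (Finset.mem_powersetCard.1 I.2).2
      omega)⟩
  have hv : LinearIndependent F v := by
    apply LinearIndependent.of_comp (Pj F ι l).subtype
    exact (mono_linearIndependent (F := F) (ι := ι)).comp
      (fun I : {I : Finset ι // I ∈ Finset.powersetCard (2 * l) univ} => I.1)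
      Subtype.val_injective
  convert hv.fintype_card_le_finrank

/-- The operator `G ↦ G(A + b d) - G(A) - b (G(A + d) - G(A))`. -/
def Top (d : ι → F) (b : F) : ((ι → F) → F) →ₗ[F] ((ι → F) → F) where
  toFun G := fun A => G (A + b • d) - G A - b * (G (A + d) - G A)
  map_add' := by
    intro G H
    funext A
    simp only [Pi.add_apply]
    ring
  map_smul' := by
    intro c G
    funext A
    simp only [Pi.smul_apply, smul_eq_mul, RingHom.id_apply]
    ring

omit [Fintype F] [Fintype ι] [DecidableEq ι] in
theorem Top_apply (d : ι → F) (b : F) (G : (ι → F) → F) (A : ι → F) :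
    Top d b G A = G (A + b • d) - G A - b * (G (A + d) - G A) := rfl

omit [Fintype F] [Fintype ι] [DecidableEq ι] in
theorem Top_comm (d d' : ι → F) (b b' : F) (G : (ι → F) → F) :
    Top d b (Top d' b' G) = Top d' b' (Top d b G) := by
  funext A
  simp only [Top_apply]
  rw [add_right_comm A (b • d) (b' • d'), add_right_comm A (b • d) d', add_right_comm A d (b' • d'),
    add_right_comm A d d']
  ring

omit [Fintype F] [Fintype ι] in
theorem Top_mono (d : ι → F) (b : F) (I : Finset ι) :
    Top d b (mono I) = ∑ J ∈ I.powerset,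
      ((if J = ∅ then 0 else b ^ J.card - b) * ∏ i ∈ J, d i) • (mono (I \ J) : (ι → F) → F) := by
  funext A
  have e1 : mono I (A + b • d) = ∑ J ∈ I.powerset, (b ^ J.card * ∏ i ∈ J, d i) * mono (I \ J) A := by
    unfold mono
    have : ∏ i ∈ I, (A + b • d) i = ∏ i ∈ I, (b * d i + A i) := by
      apply Finset.prod_congr rfl
      intro i _
      simp only [Pi.add_apply, Pi.smul_apply, smul_eq_mul]
      ring
    rw [this, Finset.prod_add]
    apply Finset.sum_congr rfl
    intro J _
    rw [Finset.prod_mul_distrib, Finset.prod_const]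
  have e2 : mono I (A + d) = ∑ J ∈ I.powerset, (∏ i ∈ J, d i) * mono (I \ J) A := by
    unfold mono
    have : ∏ i ∈ I, (A + d) i = ∏ i ∈ I, (d i + A i) := by
      apply Finset.prod_congr rfl
      intro i _
      simp only [Pi.add_apply]
      ring
    rw [this, Finset.prod_add]
  have e3 : mono I A = ∑ J ∈ I.powerset, (if J = ∅ then mono (I \ J) A else 0) := by
    rw [Finset.sum_eq_single ∅]
    · simp
    · intro J _ hJ
      rw [if_neg hJ]
    · intro h
      exact absurd (Finset.empty_mem_powerset I) h
  rw [Top_apply, e1, e2]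
  conv_lhs => rw [e3]
  rw [← Finset.sum_sub_distrib, ← Finset.sum_sub_distrib, Finset.mul_sum, ← Finset.sum_sub_distrib,
    Finset.sum_apply]
  apply Finset.sum_congr rfl
  intro J _
  simp only [Pi.smul_apply, smul_eq_mul]
  split_ifs with h
  · subst h
    simp
  · ring

omit [Fintype F] in
theorem Top_mem (d : ι → F) (b : F) (j : ℕ) (G : (ι → F) → F) (hG : G ∈ Pj F ι (j + 1)) :
    Top d b G ∈ Pj F ι j := by
  induction hG using Submodule.span_induction with
  | mem x hx =>
    obtain ⟨I, hI, rfl⟩ := hx
    rw [Top_mono]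
    apply Submodule.sum_mem
    intro J hJ
    rw [Finset.mem_powerset] at hJ
    by_cases h0 : J = ∅
    · rw [if_pos h0, zero_mul, zero_smul]
      exact Submodule.zero_mem _
    · rw [if_neg h0]
      by_cases h1 : J.card = 1
      · rw [h1, pow_one, sub_self, zero_mul, zero_smul]
        exact Submodule.zero_mem _
      · apply Submodule.smul_mem
        apply mono_mem
        have h2 : 0 < J.card := Finset.card_pos.2 (Finset.nonempty_iff_ne_empty.2 h0)
        rw [Finset.card_sdiff_of_subset hJ]
        omega
  | zero => rw [map_zero]; exact Submodule.zero_mem _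
  | add x y _ _ hx hy => rw [map_add]; exact Submodule.add_mem _ hx hy
  | smul c x _ hx => rw [map_smul]; exact Submodule.smul_mem _ _ hx

omit [Fintype F] in
theorem Top_zero (d : ι → F) (b : F) (G : (ι → F) → F) (hG : G ∈ Pj F ι 0) :
    Top d b G = 0 := by
  induction hG using Submodule.span_induction with
  | mem x hx =>
    obtain ⟨I, hI, rfl⟩ := hx
    have : I = ∅ := by
      rw [← Finset.card_eq_zero]; omega
    subst this
    funext A
    simp [Top_apply, mono]
  | zero => rw [map_zero]
  | add x y _ _ hx hy => rw [map_add, hx, hy, add_zero]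
  | smul c x _ hx => rw [map_smul, hx, smul_zero]

/-- The functions affine along every line in a direction of the family `d`. -/
def Wsp {κ : Type*} (d : κ → (ι → F)) : Submodule F ((ι → F) → F) where
  carrier := {G | ∀ u b A, G (A + b • d u) - G A = b * (G (A + d u) - G A)}
  add_mem' := by
    intro G H hG hH u b A
    simp only [Pi.add_apply]
    linear_combination hG u b A + hH u b A
  zero_mem' := by
    intro u b A
    simp
  smul_mem' := by
    intro c G hG u b A
    simp only [Pi.smul_apply, smul_eq_mul]
    linear_combination c * hG u b A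

omit [Fintype F] [Fintype ι] [DecidableEq ι] in
theorem mem_Wsp {κ : Type*} (d : κ → (ι → F)) (G : (ι → F) → F) :
    G ∈ Wsp d ↔ ∀ u b A, G (A + b • d u) - G A = b * (G (A + d u) - G A) := Iff.rfl

theorem choose_le_finrank_Wsp {κ : Type*} [Fintype κ] (d : κ → (ι → F)) (l : ℕ) :
    (Fintype.card ι).choose (2 * l) ≤
      (Fintype.card F * Fintype.card κ + l).choose l * finrank F ↥(Wsp d) := by
  classical
  set Ts : List (((ι → F) → F) →ₗ[F] ((ι → F) → F)) :=
    (Finset.univ : Finset (F × κ)).toList.map (fun p => Top (d p.2) p.1) with hTs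
  have hlen : Ts.length = Fintype.card F * Fintype.card κ := by
    rw [hTs, List.length_map, Finset.length_toList, Finset.card_univ, Fintype.card_prod]
  have hmem : ∀ T ∈ Ts, ∃ b u, T = Top (d u) b := by
    intro T hT
    rw [hTs, List.mem_map] at hT
    obtain ⟨p, _, rfl⟩ := hT
    exact ⟨p.1, p.2, rfl⟩
  have h := rank_filtration Ts (Pj F ι)
    (by
      intro T hT T' hT' x
      obtain ⟨b, u, rfl⟩ := hmem T hT
      obtain ⟨b', u', rfl⟩ := hmem T' hT'
      exact Top_comm _ _ _ _ _)
    Pj_mono
    (by
      intro T hT x hx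
      obtain ⟨b, u, rfl⟩ := hmem T hT
      exact Top_zero _ _ _ hx)
    (by
      intro T hT j x hx
      obtain ⟨b, u, rfl⟩ := hmem T hT
      exact Top_mem _ _ _ _ hx) l
  rw [hlen] at h
  refine (le_finrank_Pj (F := F) (ι := ι) l).trans (h.trans (Nat.mul_le_mul_left _ ?_))
  apply Submodule.finrank_mono
  rintro G ⟨_, hG⟩ u b A
  have h1 := hG (Top (d u) b) (by
    rw [hTs, List.mem_map]
    exact ⟨(b, u), Finset.mem_toList.2 (Finset.mem_univ _), rfl⟩)
  have h2 := congrFun h1 A
  rw [Top_apply, Pi.zero_apply] at h2
  linear_combination h2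

end Pool.Agent.Work.MP_6591ba_co
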