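import Mathlib
import Pool.Agent.Work.MP_6591ba_co.Multi
import Pool.Agent.Work.MP_6591ba_co.Build

set_option autoImplicit false

namespace Pool.Agent.Work.MP_6591ba_co

open Module

variable {F ι κ : Type} [Field F] [Fintype F] [DecidableEq F] [Fintype ι] [DecidableEq ι]
  [Fintype κ]

/-- Evaluation functional. -/
def evA (d : κ → (ι → F)) (A : ι → F) : Dual F (Wsp d) where
  toFun G := G.1 A
  map_add' := by
    intro G H
    rfl
  map_smul' := by
    intro c G
    rfl

omit [Fintype F] [DecidableEq F] [Fintype ι] [DecidableEq ι] [Fintype κ] in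
theorem evA_apply (d : κ → (ι → F)) (A : ι → F) (G : Wsp d) : evA d A G = G.1 A := rfl

omit [Fintype F] [DecidableEq F] [Fintype ι] [DecidableEq ι] [Fintype κ] in
theorem one_mem_Wsp (d : κ → (ι → F)) : (fun _ => 1 : (ι → F) → F) ∈ Wsp d := by
  rw [mem_Wsp]
  intro u b A
  ring

omit [Fintype F] [DecidableEq F] [Fintype ι] [DecidableEq ι] [Fintype κ] in
theorem coord_mem_Wsp (d : κ → (ι → F)) (i : ι) : (fun A => A i : (ι → F) → F) ∈ Wsp d := by
  rw [mem_Wsp]
  intro u b A
  simp only [Pi.add_apply, Pi.smul_apply, smul_eq_mul]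
  ring

omit [Fintype F] [DecidableEq F] [Fintype ι] [DecidableEq ι] [Fintype κ] in
theorem evA_inj (d : κ → (ι → F)) (c c' : F) (A B : ι → F) (hc : c ≠ 0)
    (h : c • evA d A = c' • evA d B) : c = c' ∧ A = B := by
  have h1 := LinearMap.congr_fun h ⟨_, one_mem_Wsp d⟩
  simp only [LinearMap.smul_apply, evA_apply, smul_eq_mul, mul_one] at h1
  subst h1
  refine ⟨rfl, ?_⟩
  funext i
  have h2 := LinearMap.congr_fun h ⟨_, coord_mem_Wsp d i⟩
  simp only [LinearMap.smul_apply, evA_apply, smul_eq_mul] at h2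
  exact mul_left_cancel₀ hc h2

omit [DecidableEq F] [DecidableEq ι] [Fintype κ] in
theorem span_evA (d : κ → (ι → F)) : Submodule.span F (Set.range (evA d)) = ⊤ := by
  classical
  have h1 : (Submodule.span F (Set.range (evA d))).dualCoannihilator = ⊥ := by
    rw [eq_bot_iff]
    intro G hG
    rw [Submodule.mem_dualCoannihilator] at hG
    rw [Submodule.mem_bot]
    apply Subtype.ext
    funext A
    exact hG (evA d A) (Submodule.subset_span ⟨A, rfl⟩)
  have h2 := Subspace.dualCoannihilator_dualAnnihilator_eq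
    (W := Submodule.span F (Set.range (evA d)))
  rw [← h2, h1, Submodule.dualAnnihilator_bot]

omit [DecidableEq F] [DecidableEq ι] [Fintype κ] in
theorem closure_evA (d : κ → (ι → F)) :
    AddSubgroup.closure (Set.range (fun p : Fˣ × (ι → F) => (p.1 : F) • evA d p.2)) = ⊤ := by
  classical
  rw [eq_top_iff]
  intro x _
  have hx : x ∈ Submodule.span F (Set.range (evA d)) := by
    rw [span_evA]
    exact Submodule.mem_top
  rw [Submodule.mem_span_range_iff_exists_fun] at hx
  obtain ⟨c, rfl⟩ := hx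
  apply AddSubgroup.sum_mem
  intro A _
  by_cases hc : c A = 0
  · rw [hc, zero_smul]
    exact AddSubgroup.zero_mem _
  · exact AddSubgroup.subset_closure ⟨(Units.mk0 (c A) hc, A), rfl⟩

omit [Fintype F] [DecidableEq F] [Fintype ι] [DecidableEq ι] [Fintype κ] in
theorem evA_line (d : κ → (ι → F)) (A : ι → F) (u : κ) (c c' t : F) (h : c + c' ≠ 0) :
    c • evA d A + c' • evA d (A + t • d u) =
      (c + c') • evA d (A + (c' * t / (c + c')) • d u) := by
  ext G
  simp only [LinearMap.add_apply, LinearMap.smul_apply, evA_apply, smul_eq_mul]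
  have h1 := (mem_Wsp d G.1).1 G.2 u t A
  have h2 := (mem_Wsp d G.1).1 G.2 u (c' * t / (c + c')) A
  have h3 : G.1 (A + t • d u) = G.1 A + t * (G.1 (A + d u) - G.1 A) := by
    linear_combination h1
  have h4 : G.1 (A + (c' * t / (c + c')) • d u) =
      G.1 A + (c' * t / (c + c')) * (G.1 (A + d u) - G.1 A) := by
    linear_combination h2
  rw [h3, h4]
  field_simp
  ring

theorem exists_complex [CharP F 2] (d : κ → (ι → F)) (hd : DirInj d) (f : ℕ)
    (hF : Fintype.card F = 2 ^ f) (hf : 1 ≤ f) (hQ : 2 < Fintype.card F)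
    (hK : 0 < Fintype.card κ) (B : ℝ) (hB1 : 1 ≤ B * ((Fintype.card F : ℝ) - 2))
    (hB2 : ∀ y : ι → F, y ≠ 0 → |(Fintype.card F : ℝ) * (zc d y : ℝ) - (Fintype.card κ : ℝ)| ≤
      B * ((Fintype.card κ : ℝ) * ((Fintype.card F : ℝ) - 1))) :
    ∃ n : ℕ, finrank F (Wsp d) ≤ n ∧ ∃ (S : Set (Fin n → ZMod 2))
      (X : TwoComplex (Fin n → ZMod 2)), IsCayleyComplex X S ∧ IsLocalSpectralExpander X B ∧
        (∀ u v, ∃ w, (X.link u).Adj v w) ∧
        S.ncard ≤ Fintype.card F ^ (Fintype.card ι + 1) := by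
  classical
  have h2F : ∀ x : F, x + x = 0 := fun x => CharTwo.add_self_eq_zero x
  have h2V : ∀ x : Dual F (Wsp d), x + x = 0 := by
    intro x
    ext G
    exact h2F _
  let _ : Module (ZMod 2) (Dual F (Wsp d)) := AddCommGroup.zmodModule (n := 2) (by
    intro x
    rw [two_nsmul]
    exact h2V x)
  have : Finite (Dual F (Wsp d)) := Module.finite_of_finite F
  have : Module.Finite (ZMod 2) (Dual F (Wsp d)) := Module.Finite.of_finite
  set n := finrank (ZMod 2) (Dual F (Wsp d)) with hn
  let φ : (Dual F (Wsp d)) ≃ₗ[ZMod 2] (Fin n → ZMod 2) := (Module.finBasis (ZMod 2) _).equivFun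
  have hcard1 : Nat.card (Dual F (Wsp d)) = 2 ^ n := by
    have := Fintype.ofFinite (Dual F (Wsp d))
    rw [Nat.card_eq_fintype_card, Module.card_eq_pow_finrank (K := ZMod 2), ZMod.card]
  have hcard2 : Nat.card (Dual F (Wsp d)) = (2 ^ f) ^ finrank F (Wsp d) := by
    have := Fintype.ofFinite (Dual F (Wsp d))
    rw [Nat.card_eq_fintype_card, Module.card_eq_pow_finrank (K := F), hF,
      Subspace.dual_finrank_eq]
  have hndim : n = f * finrank F (Wsp d) := by
    rw [hcard1, ← pow_mul] at hcard2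
    exact Nat.pow_right_injective (le_refl 2) hcard2
  refine ⟨n, ?_, ?_⟩
  · rw [hndim]
    exact Nat.le_mul_of_pos_left _ (by omega)
  let σ : Fˣ × (ι → F) → (Fin n → ZMod 2) := fun p => φ ((p.1 : F) • evA d p.2)
  have hσ : ∀ p, σ p = φ ((p.1 : F) • evA d p.2) := fun _ => rfl
  have h2 : ∀ x : Fin n → ZMod 2, x + x = 0 := by
    intro x
    funext i
    exact CharTwo.add_self_eq_zero _
  have h0 : ∀ p, σ p ≠ 0 := by
    intro p hp
    rw [hσ, map_eq_zero_iff φ φ.injective] at hp
    have h1 := LinearMap.congr_fun hp ⟨_, one_mem_Wsp d⟩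
    simp only [LinearMap.smul_apply, evA_apply, smul_eq_mul, mul_one, LinearMap.zero_apply] at h1
    exact p.1.ne_zero h1
  have hinj : Function.Injective σ := by
    intro p q h
    rw [hσ, hσ] at h
    have h1 := φ.injective h
    obtain ⟨h3, h4⟩ := evA_inj d _ _ _ _ p.1.ne_zero h1
    exact Prod.ext (Units.ext h3) h4
  have hcl : ∀ p q, (LG d).Adj p q → ∃ r, σ p + σ q = σ r ∧ (LG d).Adj p r := by
    rintro ⟨c, A⟩ ⟨c', A'⟩ ⟨hcc, u, t, ht, hA'⟩
    simp only at hcc hA'
    subst hA'
    have hne : (c : F) + c' ≠ 0 := by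
      intro h
      apply hcc
      apply Units.ext
      have h5 := h2F (c' : F)
      have : (c : F) = c' := by linear_combination h - h5
      exact this
    refine ⟨(Units.mk0 ((c : F) + c') hne, A + ((c' : F) * t / ((c : F) + c')) • d u), ?_, ?_⟩
    · rw [hσ, hσ, hσ, ← map_add]
      congr 1
      exact evA_line d A u c c' t hne
    · refine ⟨?_, u, (c' : F) * t / ((c : F) + c'), ?_, rfl⟩
      · intro h
        have h6 := congrArg (fun x : Fˣ => (x : F)) h
        simp only [Units.val_mk0] at h6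
        have : (c' : F) = 0 := by linear_combination -h6
        exact c'.ne_zero this
      · exact div_ne_zero (mul_ne_zero c'.ne_zero ht) hne
  have hgen : AddSubgroup.closure (Set.range σ) = ⊤ := by
    have h1 := congrArg (AddSubgroup.map (φ : (Dual F (Wsp d)) →+ (Fin n → ZMod 2))) (closure_evA d)
    rw [AddMonoidHom.map_closure, ← Set.range_comp] at h1
    have h3 : AddSubgroup.map (φ : (Dual F (Wsp d)) →+ (Fin n → ZMod 2)) ⊤ = ⊤ := by
      rw [← AddMonoidHom.range_eq_map, AddMonoidHom.range_eq_top]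
      exact φ.surjective
    rw [h3] at h1
    exact h1
  refine ⟨Set.range σ, bigX σ (LG d) h2 h0, ⟨hgen, fun x y => Iff.rfl⟩,
    ⟨bigX_connected σ (LG d) h2 h0 hgen, ?_⟩, ?_, ?_⟩
  · intro u
    rw [secondEigenvalue_iso (LG d) _ (nbrEquiv σ (LG d) h2 h0 hinj u)
      (link_iso σ (LG d) h2 h0 hinj hcl u)]
    exact second_LG d hd hQ hK B hB1 hB2
  · intro u v
    obtain ⟨p, rfl⟩ := (nbrEquiv σ (LG d) h2 h0 hinj u).surjective v
    have hpos : 0 < (Finset.univ.filter (fun q => (LG d).Adj p q)).card := by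
      rw [card_nbr d hd p]
      unfold degL
      apply Nat.mul_pos (by omega)
      apply Nat.mul_pos hK (by omega)
    obtain ⟨q, hq⟩ := Finset.card_pos.1 hpos
    rw [Finset.mem_filter] at hq
    exact ⟨nbrEquiv σ (LG d) h2 h0 hinj u q, (link_iso σ (LG d) h2 h0 hinj hcl u p q).2 hq.2⟩
  · have h3 : (Set.range σ).ncard = Nat.card (Fˣ × (ι → F)) := by
      rw [← Set.image_univ, Set.ncard_image_of_injective _ hinj, Set.ncard_univ]
    rw [h3, Nat.card_eq_fintype_card, Fintype.card_prod, Fintype.card_units, Fintype.card_fun,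
      pow_succ, mul_comm]
    exact Nat.mul_le_mul_left _ (Nat.sub_le _ _)

end Pool.Agent.Work.MP_6591ba_co
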