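import Mathlib
import Pool.Agent.Work.MP_6591ba_co.Arith
import Pool.Agent.Work.MP_6591ba_co.Concrete

set_option autoImplicit false

namespace Pool.Agent.Work.MP_6591ba_co

open Module

theorem two_mul_le_two_pow (m : ℕ) (hm : 2 ≤ m) : 2 * m ≤ 2 ^ m := by
  induction m, hm using Nat.le_induction with
  | base => norm_num
  | succ k hk ih =>
    rw [pow_succ]
    omega

/-- The main theorem for a fixed field of order `2 ^ f`, with the second eigenvalues of all links
at most `2 / f`. -/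
theorem main_fixed (f : ℕ) (hf : 2 ≤ f) :
    ∃ c : ℕ, ∀ n₀ : ℕ, ∃ n ≥ n₀, ∃ (S : Set (Fin n → ZMod 2)) (X : TwoComplex (Fin n → ZMod 2)),
      IsCayleyComplex X S ∧ IsLocalSpectralExpander X (2 / (f : ℝ)) ∧
      (∀ u v, ∃ w, (X.link u).Adj v w) ∧ S.ncard ≤ n ^ c := by
  classical
  have : Fact (Nat.Prime 2) := ⟨Nat.prime_two⟩
  let F := GaloisField 2 f
  have : Fintype F := Fintype.ofFinite F
  have hF : Fintype.card F = 2 ^ f := by
    rw [← Nat.card_eq_fintype_card]
    exact GaloisField.card 2 f (by omega)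
  set Q := 2 ^ f with hQ
  set C := 2 * f * Q with hC
  set L := 4 * (C + 1) with hL
  have hLpos : 0 < L := by rw [hL]; positivity
  refine ⟨2 * f * L, ?_⟩
  intro n₀
  set e := L * (n₀ + 1) with he
  have he1 : 1 ≤ e := by
    rw [he]
    exact Nat.mul_pos hLpos (Nat.succ_pos _)
  set K := Q ^ e with hK
  have hK2 : K = 2 ^ (f * e) := by rw [hK, hQ, ← pow_mul]
  have hKpos : 0 < K := by rw [hK2]; positivity
  set D := K / f with hD
  have hfD : f * D ≤ K := Nat.mul_div_le _ _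
  have hKD : K < f * (D + 1) := by
    rw [mul_add, mul_one]
    have h1 := Nat.div_add_mod K f
    have h2 := Nat.mod_lt K (show 0 < f by omega)
    rw [← hD] at h1
    omega
  have h1e : 1 + e ≤ D := by
    rw [hD, Nat.le_div_iff_mul_le (by omega), hK2]
    refine le_trans ?_ (two_mul_le_two_pow (f * e) (by nlinarith))
    nlinarith
  obtain ⟨D', hD'⟩ : ∃ D', D = 1 + e + D' := ⟨D - (1 + e), by omega⟩
  obtain ⟨v, hv⟩ := exists_dir (F := F) (e := e) (D' := D') hF
  have hcardκ : Fintype.card (Fin e → F) = K := by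
    rw [Fintype.card_fun, hF, Fintype.card_fin]
  have hcardι : Fintype.card (Idx e D') = D := by
    rw [hD']
    simp [Idx]
    ring
  have hz : ∀ y : Idx e D' → F, y ≠ 0 → f * zc (dir v) y ≤ 2 * K := by
    intro y hy
    have h1 := hv y hy
    rw [hcardκ, ← hD'] at h1
    omega
  have hQ4 : 4 ≤ Q := by
    rw [hQ]
    calc 4 = 2 ^ 2 := by norm_num
      _ ≤ 2 ^ f := Nat.pow_le_pow_right (by norm_num) hf
  have hfQ : f + 1 ≤ Q := by
    rw [hQ]
    exact Nat.lt_two_pow_self
  have hfQ2 : 2 * f ≤ Q := two_mul_le_two_pow f hf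
  have hfR : (0 : ℝ) < f := by
    have : 0 < f := by omega
    exact_mod_cast this
  have hf2R : (2 : ℝ) ≤ f := by exact_mod_cast hf
  have hQR : (2 * f : ℝ) ≤ Q := by exact_mod_cast hfQ2
  have hQ4R : (4 : ℝ) ≤ Q := by exact_mod_cast hQ4
  have hKR : (0 : ℝ) < K := by exact_mod_cast hKpos
  obtain ⟨n, hn, S, X, hS, hX, hX2, hc⟩ := exists_complex (F := F) (dir v)
    (fun u u' c c' hc h => dir_inj v u u' c c' hc h) f hF (by omega) (by rw [hF]; omega)
    (by rw [hcardκ]; exact hKpos) (2 / (f : ℝ))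
    (by
      rw [hF, div_mul_eq_mul_div, le_div_iff₀ hfR]
      linarith)
    (by
      intro y hy
      rw [hF, hcardκ]
      have h1 : (f : ℝ) * (zc (dir v) y : ℝ) ≤ 2 * K := by exact_mod_cast hz y hy
      have h2 : (0 : ℝ) ≤ (zc (dir v) y : ℝ) := Nat.cast_nonneg _
      have h3 : ((Q : ℝ) * (zc (dir v) y : ℝ) - K) * f ≤ 2 * (K * (Q - 1)) := by
        have h4 : (Q : ℝ) * ((f : ℝ) * (zc (dir v) y : ℝ)) ≤ Q * (2 * K) :=
          mul_le_mul_of_nonneg_left h1 (by linarith)
        have h5 : 2 * (K : ℝ) ≤ f * K := mul_le_mul_of_nonneg_right hf2R hKR.le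
        linarith
      have h4 : (-((Q : ℝ) * (zc (dir v) y : ℝ) - K)) * f ≤ 2 * (K * (Q - 1)) := by
        have h5 : 0 ≤ (Q : ℝ) * ((f : ℝ) * (zc (dir v) y : ℝ)) := by positivity
        have h6 : (f : ℝ) * K ≤ (2 * (Q - 1)) * K :=
          mul_le_mul_of_nonneg_right (by linarith) hKR.le
        linarith
      rw [div_mul_eq_mul_div, abs_le', le_div_iff₀ hfR, le_div_iff₀ hfR]
      exact ⟨h3, h4⟩)
  set l := D / L with hl
  have hLl : L * l ≤ D := Nat.mul_div_le _ _
  have hDL : D < L * (l + 1) := by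
    rw [mul_add, mul_one]
    have h1 := Nat.div_add_mod D L
    have h2 := Nat.mod_lt D hLpos
    rw [← hl] at h1
    omega
  have hln : n₀ + 1 ≤ l := by
    rw [hl, Nat.le_div_iff_mul_le hLpos, mul_comm]
    omega
  have hk : Q * K ≤ C * D := by
    have h1 : K ≤ 2 * (f * D) := by
      have h2 : f * (D + 1) ≤ 2 * (f * D) := by nlinarith
      omega
    calc Q * K ≤ Q * (2 * (f * D)) := Nat.mul_le_mul_left _ h1
      _ = C * D := by rw [hC]; ring
  have h1 := choose_arith C (Q * K) l D hLl hk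
  have h2 := choose_le_finrank_Wsp (dir v) l
  rw [hcardι, hcardκ, hF] at h2
  have h3 : 2 ^ l ≤ finrank F (Wsp (dir v)) := by
    have h4 : 0 < (Q * K + l).choose l := Nat.choose_pos (Nat.le_add_left _ _)
    have h5 : (Q * K + l).choose l * 2 ^ l ≤ (Q * K + l).choose l * finrank F (Wsp (dir v)) := by
      rw [mul_comm ((Q * K + l).choose l) (2 ^ l)]
      exact h1.trans h2
    exact Nat.le_of_mul_le_mul_left h5 h4
  have h4 : 2 ^ l ≤ n := h3.trans hn
  refine ⟨n, ?_, S, X, hS, hX, hX2, ?_⟩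
  · have h5 : l < 2 ^ l := Nat.lt_two_pow_self
    omega
  · rw [hF, hcardι] at hc
    refine hc.trans ?_
    have e1 : L * (l + 1) ≤ 2 * L * l := by
      calc L * (l + 1) ≤ L * (2 * l) := Nat.mul_le_mul_left _ (by omega)
        _ = 2 * L * l := by ring
    have hQ1 : 0 < Q := by omega
    have e2 : Q ^ (D + 1) ≤ Q ^ (2 * L * l) := Nat.pow_le_pow_right hQ1 (by omega)
    have e3 : Q ^ (2 * L * l) = (2 ^ l) ^ (2 * f * L) := by
      rw [hQ, ← pow_mul, ← pow_mul]
      congr 1
      ring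
    exact (e2.trans e3.le).trans (Nat.pow_le_pow_left h4 _)

end Pool.Agent.Work.MP_6591ba_co
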